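import Mathlib

set_option autoImplicit false
set_option linter.all false

open Finset

namespace Pool.Agent.Helper45.CCE

section
variable {V E : Type*} [Fintype V] [DecidableEq V] [Fintype E] [DecidableEq E]

/-- all degrees of `S` are even -/
def EvenAt (ends : E → Sym2 V) (S : Finset E) : Prop :=
  ∀ v : V, Even (S.filter (fun e => v ∈ ends e)).card

theorem evenAt_empty (ends : E → Sym2 V) : EvenAt ends ∅ := by
  intro v
  simp

theorem evenAt_sdiff (ends : E → Sym2 V) {S M : Finset E} (hM : M ⊆ S) (hS : EvenAt ends S)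
    (hM' : EvenAt ends M) : EvenAt ends (S \ M) := by
  intro v
  have h1 : (S \ M).filter (fun e => v ∈ ends e) =
      S.filter (fun e => v ∈ ends e) \ M.filter (fun e => v ∈ ends e) := by
    ext e
    simp only [Finset.mem_filter, Finset.mem_sdiff]
    tauto
  rw [h1, Finset.card_sdiff_of_subset (Finset.filter_subset_filter _ hM)]
  have h2 := Finset.card_le_card (Finset.filter_subset_filter (fun e => v ∈ ends e) hM)
  exact (Nat.even_sub h2).2 (by simp [hS v, hM' v])

theorem exists_min (ends : E → Sym2 V) (n : ℕ) : ∀ S : Finset E, S.card = n → S.Nonempty → EvenAt ends S →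
    ∃ M ⊆ S, M.Nonempty ∧ EvenAt ends M ∧ ∀ T ⊆ M, T.Nonempty → EvenAt ends T → T = M := by
  induction n using Nat.strong_induction_on with
  | _ n ih =>
    intro S hn hne hS
    by_cases h : ∀ T ⊆ S, T.Nonempty → EvenAt ends T → T = S
    · exact ⟨S, Finset.Subset.refl _, hne, hS, h⟩
    · push Not at h
      obtain ⟨T, h1, h2, h3, h4⟩ := h
      have h5 : T.card < S.card := Finset.card_lt_card (Finset.ssubset_iff_subset_ne.2 ⟨h1, h4⟩)
      obtain ⟨M, g1, g2, g3, g4⟩ := ih T.card (by omega) T rfl h2 h3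
      exact ⟨M, g1.trans h1, g2, g3, g4⟩

theorem even_labels {L : Type*} (ends : E → Sym2 V) (c : E → L) (n : ℕ) : ∀ S : Finset E, S.card = n →
    (∀ l : L, ∀ S' : Finset E, (∀ e, e ∈ S' ↔ e ∈ S ∧ c e = l) → EvenAt ends S') →
    ∃ 𝒞 : Finset (Finset E),
      (∀ M ∈ 𝒞, M ⊆ S ∧ M.Nonempty ∧ EvenAt ends M ∧ ∀ T ⊆ M, T.Nonempty → EvenAt ends T → T = M) ∧
      (∀ e ∈ S, ∃! M, M ∈ 𝒞 ∧ e ∈ M) ∧ ∀ M ∈ 𝒞, ∀ e ∈ M, ∀ f ∈ M, c e = c f := by
  classical
  induction n using Nat.strong_induction_on with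
  | _ n ih =>
    intro S hn h
    rcases Finset.eq_empty_or_nonempty S with rfl | ⟨e0, he0⟩
    · refine ⟨∅, fun M hM => absurd hM (Finset.notMem_empty _), fun e he => absurd he (Finset.notMem_empty _),
        fun M hM => absurd hM (Finset.notMem_empty _)⟩
    · have hcl := h (c e0) (S.filter (fun e => c e = c e0)) (fun e => Finset.mem_filter)
      obtain ⟨M, h1, h2, h3, h4⟩ := exists_min ends _ (S.filter (fun e => c e = c e0)) rfl
        ⟨e0, Finset.mem_filter.2 ⟨he0, rfl⟩⟩ hcl
      have hMS : M ⊆ S := h1.trans (Finset.filter_subset _ _)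
      have hMc : ∀ e ∈ M, c e = c e0 := fun e he => (Finset.mem_filter.1 (h1 he)).2
      have hlt : (S \ M).card < n := by
        rw [← hn]
        apply Finset.card_lt_card
        refine Finset.ssubset_iff_subset_ne.2 ⟨Finset.sdiff_subset, fun h => ?_⟩
        obtain ⟨x, hx⟩ := h2
        have := hMS hx
        rw [← h] at this
        exact (Finset.mem_sdiff.1 this).2 hx
      obtain ⟨𝒞, g1, g2, g3⟩ := ih _ hlt (S \ M) rfl (by
        intro l S' hS'
        have e1 : S' = S.filter (fun e => c e = l) \ M.filter (fun e => c e = l) := by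
          ext e
          rw [hS', Finset.mem_sdiff, Finset.mem_sdiff, Finset.mem_filter, Finset.mem_filter]
          tauto
        rw [e1]
        apply evenAt_sdiff ends (Finset.filter_subset_filter _ hMS)
          (h l _ (fun e => Finset.mem_filter))
        by_cases hl : l = c e0
        · have : M.filter (fun e => c e = l) = M := by
            apply Finset.filter_true_of_mem
            intro e he
            rw [hMc e he, hl]
          rw [this]; exact h3
        · have : M.filter (fun e => c e = l) = ∅ := by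
            apply Finset.filter_false_of_mem
            intro e he h
            apply hl
            rw [← h, hMc e he]
          rw [this]; exact evenAt_empty ends)
      refine ⟨insert M 𝒞, ?_, ?_, ?_⟩
      · intro M' hM'
        rcases Finset.mem_insert.1 hM' with rfl | hM'
        · exact ⟨hMS, h2, h3, h4⟩
        · obtain ⟨a1, a2, a3, a4⟩ := g1 M' hM'
          exact ⟨a1.trans Finset.sdiff_subset, a2, a3, a4⟩
      · intro e he
        by_cases heM : e ∈ M
        · refine ⟨M, ⟨Finset.mem_insert_self _ _, heM⟩, ?_⟩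
          rintro M' ⟨hM', heM'⟩
          rcases Finset.mem_insert.1 hM' with h | hM'
          · exact h
          · exact absurd heM (Finset.mem_sdiff.1 ((g1 M' hM').1 heM')).2
        · obtain ⟨M', ⟨a1, a2⟩, a3⟩ := g2 e (Finset.mem_sdiff.2 ⟨he, heM⟩)
          refine ⟨M', ⟨Finset.mem_insert_of_mem a1, a2⟩, ?_⟩
          rintro M'' ⟨b1, b2⟩
          rcases Finset.mem_insert.1 b1 with rfl | b1
          · exact absurd b2 heM
          · exact a3 M'' ⟨b1, b2⟩
      · intro M' hM' e he f hf
        rcases Finset.mem_insert.1 hM' with rfl | hM'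
        · rw [hMc e he, hMc f hf]
        · exact g3 M' hM' e he f hf

/-- two compatible circuit decompositions from two labellings with even classes whose joint
labels at each vertex are distinct -/
theorem even_pair {L L' : Type*} (ends : E → Sym2 V) (c : E → L) (c' : E → L')
    (h : ∀ l : L, ∀ S' : Finset E, (∀ e, e ∈ S' ↔ c e = l) → EvenAt ends S')
    (h' : ∀ l : L', ∀ S' : Finset E, (∀ e, e ∈ S' ↔ c' e = l) → EvenAt ends S')
    (hdis : ∀ x e f, x ∈ ends e → x ∈ ends f → e ≠ f → c e = c f → c' e ≠ c' f) :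
    ∃ C₁ C₂ : Finset (Finset E),
        (∀ S ∈ C₁, S.Nonempty ∧ (∀ v : V, Even (S.filter (fun e => v ∈ ends e)).card) ∧
            ∀ T ⊆ S, T.Nonempty → (∀ v : V, Even (T.filter (fun e => v ∈ ends e)).card) → T = S) ∧
        (∀ e : E, ∃! S, S ∈ C₁ ∧ e ∈ S) ∧
        (∀ S ∈ C₂, S.Nonempty ∧ (∀ v : V, Even (S.filter (fun e => v ∈ ends e)).card) ∧
            ∀ T ⊆ S, T.Nonempty → (∀ v : V, Even (T.filter (fun e => v ∈ ends e)).card) → T = S) ∧
        (∀ e : E, ∃! S, S ∈ C₂ ∧ e ∈ S) ∧
        (∀ v : V, ∀ S₁ ∈ C₁, ∀ S₂ ∈ C₂,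
            ((S₁ ∩ S₂).filter (fun e => v ∈ ends e)).card ≤ 1) := by
  classical
  obtain ⟨C₁, a1, a2, a3⟩ := even_labels ends c _ univ rfl
    (fun l S' hS' => h l S' (fun e => by rw [hS']; simp))
  obtain ⟨C₂, b1, b2, b3⟩ := even_labels ends c' _ univ rfl
    (fun l S' hS' => h' l S' (fun e => by rw [hS']; simp))
  refine ⟨C₁, C₂, fun S hS => (a1 S hS).2, fun e => a2 e (Finset.mem_univ _),
    fun S hS => (b1 S hS).2, fun e => b2 e (Finset.mem_univ _), ?_⟩
  intro v S₁ hS₁ S₂ hS₂
  rw [Finset.card_le_one]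
  intro e he f hf
  obtain ⟨he1, he2⟩ := Finset.mem_filter.1 he
  obtain ⟨hf1, hf2⟩ := Finset.mem_filter.1 hf
  rw [Finset.mem_inter] at he1 hf1
  by_contra hef
  exact hdis v e f he2 hf2 hef (a3 S₁ hS₁ e he1.1 f hf1.1) (b3 S₂ hS₂ e he1.2 f hf1.2)

end

end Pool.Agent.Helper45.CCE
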