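import Mathlib

set_option autoImplicit false
set_option linter.all false

open Finset

namespace Pool.Agent.Helper45.CCE

/-- first perfect matching of `0, …, K-1` -/
def mA (K i : ℕ) : ℕ := if K ≤ i then i else if i % 2 = 0 then i + 1 else i - 1
/-- second perfect matching of `0, …, K-1` -/
def mB (K i : ℕ) : ℕ :=
  if K ≤ i then i else if i = 0 then K - 1 else if i = K - 1 then 0 else if i % 2 = 1 then i + 1 else i - 1

theorem mA_lt (K i : ℕ) (hK : K % 2 = 0) (hi : i < K) : mA K i < K := by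
  unfold mA; split_ifs <;> omega
theorem mA_inv (K i : ℕ) (hK : K % 2 = 0) : mA K (mA K i) = i := by
  unfold mA; split_ifs <;> omega
theorem mA_fix (K i : ℕ) (hK : K % 2 = 0) : mA K i = i ↔ K ≤ i := by
  unfold mA; split_ifs <;> omega
theorem mB_lt (K i : ℕ) (hK : K % 2 = 0) (hi : i < K) : mB K i < K := by
  unfold mB; split_ifs <;> omega
theorem mB_1 (K i : ℕ) (h : K ≤ i) : mB K i = i := if_pos h
theorem mB_2 (K : ℕ) (h : 0 < K) : mB K 0 = K - 1 := by
  unfold mB; split_ifs <;> omega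
theorem mB_3 (K : ℕ) (h : 1 < K) : mB K (K - 1) = 0 := by
  unfold mB; split_ifs <;> omega
theorem mB_4 (K i : ℕ) (h : i < K - 1) (h0 : i ≠ 0) (h1 : i % 2 = 1) : mB K i = i + 1 := by
  unfold mB; split_ifs <;> omega
theorem mB_5 (K i : ℕ) (h : i < K - 1) (h0 : i ≠ 0) (h1 : ¬ i % 2 = 1) : mB K i = i - 1 := by
  unfold mB; split_ifs <;> omega
theorem mB_inv (K i : ℕ) (hK : K % 2 = 0) : mB K (mB K i) = i := by
  by_cases h1 : K ≤ i
  · rw [mB_1 K i h1, mB_1 K i h1]
  · by_cases h2 : i = 0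
    · subst h2
      rw [mB_2 K (by omega), mB_3 K (by omega)]
    · by_cases h3 : i = K - 1
      · subst h3
        rw [mB_3 K (by omega), mB_2 K (by omega)]
      · by_cases h4 : i % 2 = 1
        · rw [mB_4 K i (by omega) h2 h4, mB_5 K (i + 1) (by omega) (by omega) (by omega)]
          omega
        · rw [mB_5 K i (by omega) h2 h4, mB_4 K (i - 1) (by omega) (by omega) (by omega)]
          omega
theorem mB_fix (K i : ℕ) (hK : K % 2 = 0) : mB K i = i ↔ K ≤ i := by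
  unfold mB; split_ifs <;> omega
theorem mAB (K i : ℕ) (hK : K % 2 = 0) (hK4 : 4 ≤ K) (hi : i < K) : mA K i ≠ mB K i := by
  unfold mA mB; split_ifs <;> omega

variable {V : Type*}

/-- `M` is an involution of `B` whose fixed points are the elements of `z` -/
def Good (B : Set V) (M : V → V) (z : Option V) : Prop :=
  (∀ x ∈ B, M x ∈ B) ∧ (∀ x ∈ B, M (M x) = x) ∧ (∀ x ∈ B, (M x = x ↔ z = some x)) ∧
    (∀ x, z = some x → x ∈ B)

theorem transfer (B : Set V) (d : ℕ) (g : B ≃ Fin d) (K : ℕ) (hKd : K ≤ d) (hdK : d ≤ K + 1)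
    (hK : K % 2 = 0) (m : ℕ → ℕ) (hm1 : ∀ i, i < K → m i < K) (hm2 : ∀ i, m (m i) = i)
    (hm3 : ∀ i, m i = i ↔ K ≤ i) (z : Option V)
    (hz : ∀ x (hx : x ∈ B), z = some x ↔ (g ⟨x, hx⟩ : ℕ) = K) (hz' : ∀ x, z = some x → x ∈ B) :
    ∃ M : V → V, Good B M z ∧ ∀ x (hx : x ∈ B) (hx' : M x ∈ B), (g ⟨M x, hx'⟩ : ℕ) = m (g ⟨x, hx⟩) := by
  classical
  have hmd : ∀ i : Fin d, m i < d := by
    intro i
    by_cases h : (i : ℕ) < K
    · exact lt_of_lt_of_le (hm1 _ h) hKd
    · rw [(hm3 i).2 (by omega)]; exact i.2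
  let M : V → V := fun x => if h : x ∈ B then (g.symm ⟨m (g ⟨x, h⟩), hmd _⟩ : V) else x
  have hM : ∀ x (h : x ∈ B), M x = (g.symm ⟨m (g ⟨x, h⟩), hmd _⟩ : V) := fun x h => dif_pos h
  have hMB : ∀ x ∈ B, M x ∈ B := by
    intro x hx
    rw [hM x hx]
    exact (g.symm _).2
  have hMg : ∀ x (hx : x ∈ B) (hx' : M x ∈ B), (g ⟨M x, hx'⟩ : ℕ) = m (g ⟨x, hx⟩) := by
    intro x hx hx'
    have : (⟨M x, hx'⟩ : B) = g.symm ⟨m (g ⟨x, hx⟩), hmd _⟩ := Subtype.ext (hM x hx)
    rw [this, Equiv.apply_symm_apply]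
  refine ⟨M, ⟨hMB, ?_, ?_, hz'⟩, hMg⟩
  · intro x hx
    have h1 := hMg (M x) (hMB x hx) (hMB _ (hMB x hx))
    rw [hMg x hx (hMB x hx), hm2] at h1
    have h2 := g.injective (Fin.ext h1)
    exact congrArg Subtype.val h2
  · intro x hx
    rw [hz x hx]
    have h1 := hMg x hx (hMB x hx)
    have h2 := (g ⟨x, hx⟩).2
    constructor
    · intro h
      have h3 : (g ⟨M x, hMB x hx⟩ : ℕ) = (g ⟨x, hx⟩ : ℕ) := by
        congr 2
        exact Subtype.ext h
      rw [h1] at h3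
      have h4 := (hm3 _).1 h3
      omega
    · intro h
      have h3 : m (g ⟨x, hx⟩) = (g ⟨x, hx⟩ : ℕ) := (hm3 _).2 (by omega)
      rw [h3] at h1
      have h4 := g.injective (Fin.ext h1)
      exact congrArg Subtype.val h4

theorem blockM [Finite V] (B : Set V) (h3 : B.ncard ≠ 3) :
    ∃ (M M' : V → V) (z : Option V), Good B M z ∧ Good B M' z ∧
      ∀ x ∈ B, z ≠ some x → B.ncard ≠ 2 → M x ≠ M' x := by
  classical
  have hfin : B.Finite := Set.toFinite B
  have hcard : Nat.card B = B.ncard := rfl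
  let d := B.ncard
  have g : B ≃ Fin d := Finite.equivFinOfCardEq hcard
  let K := 2 * (d / 2)
  have hK : K % 2 = 0 := by omega
  have hKd : K ≤ d := by omega
  have hdK : d ≤ K + 1 := by omega
  let z : Option V := if h : K < d then some (g.symm ⟨K, h⟩ : V) else none
  have hz : ∀ x (hx : x ∈ B), z = some x ↔ (g ⟨x, hx⟩ : ℕ) = K := by
    intro x hx
    by_cases h : K < d
    · have hz1 : z = some (g.symm ⟨K, h⟩ : V) := dif_pos h
      rw [hz1]
      constructor
      · intro h1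
        have h2 : (⟨x, hx⟩ : B) = g.symm ⟨K, h⟩ := Subtype.ext (Option.some.inj h1).symm
        rw [h2, Equiv.apply_symm_apply]
      · intro h1
        have h2 : g ⟨x, hx⟩ = ⟨K, h⟩ := Fin.ext h1
        rw [← h2, Equiv.symm_apply_apply]
    · have hz1 : z = none := dif_neg h
      rw [hz1]
      constructor
      · intro h1; exact absurd h1 (by simp)
      · intro h1
        have := (g ⟨x, hx⟩).2
        omega
  have hz' : ∀ x, z = some x → x ∈ B := by
    intro x h1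
    by_cases h : K < d
    · have hz1 : z = some (g.symm ⟨K, h⟩ : V) := dif_pos h
      rw [hz1] at h1
      rw [← Option.some.inj h1]
      exact (g.symm ⟨K, h⟩).2
    · have hz1 : z = none := dif_neg h
      rw [hz1] at h1
      exact absurd h1 (by simp)
  obtain ⟨M, hM, hMg⟩ := transfer B d g K hKd hdK hK (mA K) (fun i hi => mA_lt K i hK hi)
    (fun i => mA_inv K i hK) (fun i => mA_fix K i hK) z hz hz'
  obtain ⟨M', hM', hMg'⟩ := transfer B d g K hKd hdK hK (mB K) (fun i hi => mB_lt K i hK hi)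
    (fun i => mB_inv K i hK) (fun i => mB_fix K i hK) z hz hz'
  refine ⟨M, M', z, hM, hM', ?_⟩
  intro x hx hzx h2 heq
  have h1 : (g ⟨x, hx⟩ : ℕ) ≠ K := fun h => hzx ((hz x hx).2 h)
  have h4 := (g ⟨x, hx⟩).2
  have hx1 := hM.1 x hx
  have hx2 := hM'.1 x hx
  have h5 := hMg x hx hx1
  have h6 := hMg' x hx hx2
  have h7 : (g ⟨M x, hx1⟩ : ℕ) = (g ⟨M' x, hx2⟩ : ℕ) := by
    congr 2
    exact Subtype.ext heq
  rw [h5, h6] at h7
  have hd2 : d ≠ 2 := h2
  have hd3 : d ≠ 3 := h3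
  exact mAB K _ hK (by omega) (by omega) h7

end Pool.Agent.Helper45.CCE
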