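import Mathlib
import Pool.Agent.Helper45.CCE.Even
import Pool.Agent.Helper45.CCE.Match

set_option autoImplicit false
set_option linter.all false

open Finset

namespace Pool.Agent.Helper45.CCE

theorem even_of_partner {E L : Type*} [DecidableEq E] (c : E → L) (T : Finset E)
    (h : ∀ e ∈ T, ∃ f ∈ T, f ≠ e ∧ c f = c e ∧ ∀ f' ∈ T, f' ≠ e → c f' = c e → f' = f) :
    Even T.card := by
  choose! g h1 h2 h3 h4 using h
  have hs : ∑ e ∈ T, (1 : ZMod 2) = 0 := by
    refine Finset.sum_involution (fun e _ => g e) ?_ ?_ ?_ ?_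
    · intro e he; decide
    · intro e he _; exact h2 e he
    · intro e he; exact h1 e he
    · intro e he
      have := h4 (g e) (h1 e he) e he (h2 e he).symm (h3 e he).symm
      exact this.symm
  rw [Finset.sum_const, nsmul_eq_mul, mul_one] at hs
  exact (ZMod.natCast_eq_zero_iff_even).1 hs

section
variable {V W : Type} [DecidableEq V]

/-- label of the edge of block `w` joining `x` and `y` -/
def lab (M : V → V) (z : Option V) (w : W) (x y : V) : Option (W × Sym2 (Sym2 V)) :=
  if M x = y then z.map (fun t => (w, s(s(x, M x), s(t, M t))))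
  else some (w, s(s(x, M x), s(y, M y)))

theorem lab_symm {B : Set V} {M : V → V} {z : Option V} (hG : Good B M z) (w : W) {x y : V}
    (hx : x ∈ B) (hy : y ∈ B) : lab M z w x y = lab M z w y x := by
  obtain ⟨h1, h2, h3, h4⟩ := hG
  unfold lab
  by_cases h : M x = y
  · have h' : M y = x := by rw [← h]; exact h2 x hx
    rw [if_pos h, if_pos h', h, h', Sym2.eq_swap (a := x) (b := y)]
  · have h' : ¬ M y = x := by
      intro h'
      apply h
      rw [← h']; exact h2 y hy
    rw [if_neg h, if_neg h', Sym2.eq_swap (a := s(x, M x))]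

theorem lab_same {B : Set V} {M : V → V} {z : Option V} (hG : Good B M z) (w : W) {v y y' : V}
    (hv : v ∈ B) (hy : y ∈ B) (hy' : y' ∈ B) (hyv : y ≠ v) (hyv' : y' ≠ v)
    (h : lab M z w v y = lab M z w v y') :
    y' = y ∨ y' = M y ∨ ∃ t, z = some t ∧ t ≠ v ∧ ((y = t ∧ y' = M v) ∨ (y' = t ∧ y = M v)) := by
  obtain ⟨h1, h2, h3, h4⟩ := hG
  unfold lab at h
  have key : ∀ p q : V, p ∈ B → q ∈ B → z = some p → s(p, M p) = s(q, M q) → q = p := by
    intro p q hp hq hz hs
    rcases Sym2.eq_iff.1 hs with ⟨a, b⟩ | ⟨a, b⟩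
    · exact a.symm
    · rw [← b]; exact (h3 p hp).2 hz
  by_cases ha : M v = y
  · by_cases hb : M v = y'
    · left; rw [← ha, ← hb]
    · rw [if_pos ha, if_neg hb] at h
      cases hz : z with
      | none => rw [hz] at h; exact absurd h (by simp)
      | some t =>
        rw [hz, Option.map_some] at h
        have h5 := (Prod.ext_iff.1 (Option.some.inj h)).2
        have h6 := Sym2.congr_right.1 h5
        have h7 := key t y' (h4 t hz) hy' hz h6
        right; right
        refine ⟨t, rfl, ?_, Or.inr ⟨h7, ha.symm⟩⟩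
        rw [← h7]; exact hyv'
  · by_cases hb : M v = y'
    · rw [if_neg ha, if_pos hb] at h
      cases hz : z with
      | none => rw [hz] at h; exact absurd h (by simp)
      | some t =>
        rw [hz, Option.map_some] at h
        have h5 := (Prod.ext_iff.1 (Option.some.inj h)).2
        have h6 := Sym2.congr_right.1 h5
        have h7 := key t y (h4 t hz) hy hz h6.symm
        right; right
        refine ⟨t, rfl, ?_, Or.inl ⟨h7, hb.symm⟩⟩
        rw [← h7]; exact hyv
    · rw [if_neg ha, if_neg hb] at h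
      have h5 := (Prod.ext_iff.1 (Option.some.inj h)).2
      have h6 := Sym2.congr_right.1 h5
      rcases Sym2.eq_iff.1 h6 with ⟨a, b⟩ | ⟨a, b⟩
      · left; exact a.symm
      · right; left; exact b.symm

theorem lab_diff (M M' : V → V) (z z' : Option V) (w w' : W) {v y y' : V} (hw : w ≠ w')
    (h : lab M z w v y = lab M' z' w' v y') :
    (z = none ∧ M v = y) ∧ (z' = none ∧ M' v = y') := by
  unfold lab at h
  by_cases ha : M v = y
  · cases hz : z with
    | some t =>
      exfalso
      rw [if_pos ha, hz, Option.map_some] at h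
      by_cases hb : M' v = y'
      · rw [if_pos hb] at h
        cases hz' : z' with
        | none => rw [hz'] at h; exact absurd h (by simp)
        | some t' =>
          rw [hz', Option.map_some] at h
          exact hw (Prod.ext_iff.1 (Option.some.inj h)).1
      · rw [if_neg hb] at h
        exact hw (Prod.ext_iff.1 (Option.some.inj h)).1
    | none =>
      rw [if_pos ha, hz, Option.map_none] at h
      by_cases hb : M' v = y'
      · rw [if_pos hb] at h
        cases hz' : z' with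
        | none => exact ⟨⟨rfl, ha⟩, ⟨rfl, hb⟩⟩
        | some t' => rw [hz'] at h; exact absurd h (by simp)
      · rw [if_neg hb] at h
        exact absurd h (by simp)
  · exfalso
    rw [if_neg ha] at h
    by_cases hb : M' v = y'
    · rw [if_pos hb] at h
      cases hz' : z' with
      | none => rw [hz'] at h; exact absurd h (by simp)
      | some t' =>
        rw [hz', Option.map_some] at h
        exact hw (Prod.ext_iff.1 (Option.some.inj h)).1
    · rw [if_neg hb] at h
      exact hw (Prod.ext_iff.1 (Option.some.inj h)).1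

theorem lab_ex {B : Set V} {M : V → V} {z : Option V} (hG : Good B M z) (w : W) {v y : V}
    (hv : v ∈ B) (hy : y ∈ B) (hyv : y ≠ v) (hne : lab M z w v y ≠ none) :
    ∃ y' ∈ B, y' ≠ v ∧ y' ≠ y ∧ lab M z w v y' = lab M z w v y := by
  obtain ⟨h1, h2, h3, h4⟩ := hG
  by_cases ha : M v = y
  · cases hz : z with
    | none =>
      exfalso
      apply hne
      unfold lab
      rw [if_pos ha, hz, Option.map_none]
    | some t =>
      have htB := h4 t hz
      have hMt : M t = t := (h3 t htB).2 hz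
      have htv : t ≠ v := by
        rintro rfl
        exact hyv (by rw [← ha, hMt])
      have hty : t ≠ y := by
        intro h
        apply htv
        have h5 := h2 v hv
        rw [ha, ← h, hMt] at h5
        exact h5
      refine ⟨t, htB, htv, hty, ?_⟩
      unfold lab
      rw [if_pos ha, if_neg (fun h => hty (by rw [← h, ha])), Option.map_some]
  · by_cases hzy : z = some y
    · have hMv : M v ≠ v := fun h => by
        have := (h3 v hv).1 h
        rw [hzy] at this
        exact hyv (Option.some.inj this)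
      refine ⟨M v, h1 v hv, hMv, ha, ?_⟩
      unfold lab
      rw [if_pos rfl, if_neg ha, hzy, Option.map_some]
    · have hMy : M y ≠ y := fun h => hzy ((h3 y hy).1 h)
      have h5 : M y ≠ v := fun h => ha (by rw [← h]; exact h2 y hy)
      refine ⟨M y, h1 y hy, h5, hMy, ?_⟩
      have h6 : ¬ M v = M y := by
        intro h
        apply hyv
        rw [← h2 y hy, ← h2 v hv, h]
      unfold lab
      rw [if_neg h6, if_neg ha, h2 y hy, Sym2.eq_swap (a := M y) (b := y)]

theorem lab_uniq {B : Set V} {M : V → V} {z : Option V} (hG : Good B M z) (w : W) {v y y1 y2 : V}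
    (hv : v ∈ B) (hy : y ∈ B) (hy1 : y1 ∈ B) (hy2 : y2 ∈ B) (hyv : y ≠ v) (hyv1 : y1 ≠ v)
    (hyv2 : y2 ≠ v) (hn1 : y1 ≠ y) (hn2 : y2 ≠ y)
    (e1 : lab M z w v y = lab M z w v y1) (e2 : lab M z w v y = lab M z w v y2) : y1 = y2 := by
  have l1 := lab_same hG w hv hy hy1 hyv hyv1 e1
  have l2 := lab_same hG w hv hy hy2 hyv hyv2 e2
  obtain ⟨h1, h2, h3, h4⟩ := hG
  rcases l1 with l1 | l1 | ⟨t, ht, htv, l1 | l1⟩
  · exact absurd l1 hn1
  · rcases l2 with l2 | l2 | ⟨t, ht, htv, l2 | l2⟩
    · exact absurd l2 hn2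
    · rw [l1, l2]
    · exfalso
      have : M y = y := (h3 y hy).2 (by rw [ht, l2.1])
      exact hn1 (by rw [l1, this])
    · exfalso
      apply hyv1
      rw [l1, l2.2, h2 v hv]
  · rcases l2 with l2 | l2 | ⟨t', ht', htv', l2 | l2⟩
    · exact absurd l2 hn2
    · exfalso
      have : M y = y := (h3 y hy).2 (by rw [ht, l1.1])
      exact hn2 (by rw [l2, this])
    · rw [l1.2, l2.2]
    · exfalso
      apply hn2
      rw [l2.1, l1.1]
      rw [ht] at ht'
      exact (Option.some.inj ht').symm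
  · rcases l2 with l2 | l2 | ⟨t', ht', htv', l2 | l2⟩
    · exact absurd l2 hn2
    · exfalso
      apply hyv2
      rw [l2, l1.2, h2 v hv]
    · exfalso
      apply hn1
      rw [l1.1, l2.1]
      rw [ht] at ht'
      exact Option.some.inj ht'
    · rw [l1.1, l2.1]
      rw [ht] at ht'
      exact Option.some.inj ht'

end

section
variable {V E W : Type} [Fintype V] [DecidableEq V] [Fintype E] [DecidableEq E]

theorem label_fun (ends : E → Sym2 V) (B : W → Set V) (blk : E → W)
    (hB1 : ∀ e x, x ∈ ends e → x ∈ B (blk e)) (M : W → V → V) (z : W → Option V)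
    (hG : ∀ w, Good (B w) (M w) (z w)) :
    ∃ c : E → Option (W × Sym2 (Sym2 V)), ∀ e x y, ends e = s(x, y) →
      c e = lab (M (blk e)) (z (blk e)) (blk e) x y := by
  have hab : ∀ e, ∃ a b, ends e = s(a, b) := by
    intro e
    induction h : ends e using Sym2.ind with
    | _ u v => exact ⟨u, v, rfl⟩
  choose a b hab using hab
  refine ⟨fun e => lab (M (blk e)) (z (blk e)) (blk e) (a e) (b e), ?_⟩
  intro e x y h
  have h1 := h
  rw [hab e] at h1
  have ha : a e ∈ B (blk e) := hB1 e _ (by rw [hab]; exact Sym2.mem_mk_left _ _)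
  have hb : b e ∈ B (blk e) := hB1 e _ (by rw [hab]; exact Sym2.mem_mk_right _ _)
  rcases Sym2.eq_iff.1 h1 with ⟨rfl, rfl⟩ | ⟨rfl, rfl⟩
  · rfl
  · exact lab_symm (hG (blk e)) (blk e) ha hb

theorem partner (ends : E → Sym2 V) (hloop : ∀ e, ¬ (ends e).IsDiag) (B : W → Set V) (blk : E → W)
    (hB1 : ∀ e x, x ∈ ends e → x ∈ B (blk e))
    (hB2 : ∀ (w : W) (x y : V), x ≠ y → x ∈ B w → y ∈ B w → ∃! e : E, blk e = w ∧ ends e = s(x, y))
    (M : W → V → V) (z : W → Option V) (hG : ∀ w, Good (B w) (M w) (z w))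
    (c : E → Option (W × Sym2 (Sym2 V)))
    (hc : ∀ e x y, ends e = s(x, y) → c e = lab (M (blk e)) (z (blk e)) (blk e) x y)
    (v : V) (e : E) (hv : v ∈ ends e) (hne : c e ≠ none) :
    ∃ f, v ∈ ends f ∧ f ≠ e ∧ c f = c e ∧ ∀ f', v ∈ ends f' → f' ≠ e → c f' = c e → f' = f := by
  have hsp : ∀ e, v ∈ ends e → ∃ y, ends e = s(v, y) ∧ y ≠ v ∧ y ∈ B (blk e) ∧ v ∈ B (blk e) := by
    rintro e ⟨y, hy⟩
    refine ⟨y, hy, ?_, ?_, ?_⟩
    · rintro rfl
      apply hloop e
      rw [hy]
      exact Sym2.mk_isDiag_iff.2 rfl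
    · exact hB1 e y (by rw [hy]; exact Sym2.mem_mk_right _ _)
    · exact hB1 e v (by rw [hy]; exact Sym2.mem_mk_left _ _)
  obtain ⟨y, hy, hyv, hyB, hvB⟩ := hsp e hv
  have hce := hc e v y hy
  obtain ⟨y', hy'B, hy'v, hy'y, hl⟩ := lab_ex (hG (blk e)) (blk e) hvB hyB hyv (by rw [← hce]; exact hne)
  obtain ⟨f, ⟨hf1, hf2⟩, _⟩ := hB2 (blk e) v y' hy'v.symm hvB hy'B
  have hcf : c f = c e := by
    rw [hc f v y' hf2, hce, hf1, hl]
  refine ⟨f, by rw [hf2]; exact Sym2.mem_mk_left _ _, ?_, hcf, ?_⟩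
  · rintro rfl
    rw [hy] at hf2
    exact hy'y (Sym2.congr_right.1 hf2).symm
  · intro f' hf' hne' hcf'
    obtain ⟨y2, hy2, hy2v, hy2B, hvB'⟩ := hsp f' hf'
    have hcf2 := hc f' v y2 hy2
    have hblk : blk e = blk f' := by
      by_contra hb
      have := lab_diff (M (blk e)) (M (blk f')) (z (blk e)) (z (blk f')) (blk e) (blk f') (v := v)
        (y := y) (y' := y2) hb (by rw [← hce, ← hcf2, hcf'])
      apply hne
      rw [hce]
      unfold lab
      rw [if_pos this.1.2, this.1.1, Option.map_none]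
    have h2y : y2 ≠ y := by
      rintro rfl
      apply hne'
      obtain ⟨g, _, hg⟩ := hB2 (blk e) v y2 hyv.symm hvB hyB
      rw [hg e ⟨rfl, hy⟩, hg f' ⟨hblk.symm, hy2⟩]
    rw [← hblk] at hcf2 hy2B
    have h5 : y' = y2 := lab_uniq (hG (blk e)) (blk e) hvB hyB hy'B hy2B hyv hy'v hy2v hy'y h2y
      hl.symm (by rw [← hce, ← hcf2, hcf'])
    obtain ⟨g, _, hg⟩ := hB2 (blk e) v y' hy'v.symm hvB hy'B
    rw [hg f ⟨hf1, hf2⟩, hg f' ⟨hblk.symm, by rw [h5]; exact hy2⟩]

theorem class_even (ends : E → Sym2 V) (hloop : ∀ e, ¬ (ends e).IsDiag)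
    (hdeg : ∀ v : V, Even (univ.filter (fun e : E => v ∈ ends e)).card) (B : W → Set V) (blk : E → W)
    (hB1 : ∀ e x, x ∈ ends e → x ∈ B (blk e))
    (hB2 : ∀ (w : W) (x y : V), x ≠ y → x ∈ B w → y ∈ B w → ∃! e : E, blk e = w ∧ ends e = s(x, y))
    (M : W → V → V) (z : W → Option V) (hG : ∀ w, Good (B w) (M w) (z w))
    (c : E → Option (W × Sym2 (Sym2 V)))
    (hc : ∀ e x y, ends e = s(x, y) → c e = lab (M (blk e)) (z (blk e)) (blk e) x y)
    (l : Option (W × Sym2 (Sym2 V))) (S : Finset E) (hS : ∀ e, e ∈ S ↔ c e = l) : EvenAt ends S := by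
  classical
  intro v
  have hpart := partner ends hloop B blk hB1 hB2 M z hG c hc v
  by_cases hl : l = none
  · subst hl
    have h1 : Even ((univ.filter (fun e : E => v ∈ ends e)).filter (fun e => c e ≠ none)).card := by
      apply even_of_partner c
      intro e he
      simp only [Finset.mem_filter, Finset.mem_univ, true_and] at he
      obtain ⟨f, hf1, hf2, hf3, hf4⟩ := hpart e he.1 he.2
      refine ⟨f, ?_, hf2, hf3, ?_⟩
      · simp only [Finset.mem_filter, Finset.mem_univ, true_and]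
        exact ⟨hf1, by rw [hf3]; exact he.2⟩
      · intro f' hf' hne' hcc
        simp only [Finset.mem_filter, Finset.mem_univ, true_and] at hf'
        exact hf4 f' hf'.1 hne' hcc
    have h2 : S.filter (fun e => v ∈ ends e) =
        (univ.filter (fun e : E => v ∈ ends e)).filter (fun e => ¬ (c e ≠ none)) := by
      ext e
      simp only [Finset.mem_filter, Finset.mem_univ, true_and, hS, not_not]
      tauto
    have h3 := Finset.card_filter_add_card_filter_not (s := univ.filter (fun e : E => v ∈ ends e))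
      (fun e => c e ≠ none)
    rw [h2]
    have h4 := hdeg v
    rw [← h3] at h4
    exact (Nat.even_add.1 h4).1 h1
  · apply even_of_partner c
    intro e he
    rw [Finset.mem_filter, hS] at he
    obtain ⟨f, hf1, hf2, hf3, hf4⟩ := hpart e he.2 (by rw [he.1]; exact hl)
    refine ⟨f, ?_, hf2, hf3, ?_⟩
    · rw [Finset.mem_filter, hS]
      exact ⟨by rw [hf3]; exact he.1, hf1⟩
    · intro f' hf' hne' hcc
      rw [Finset.mem_filter, hS] at hf'
      exact hf4 f' hf'.2 hne' hcc

theorem cliques (V E W : Type) [Fintype V] [DecidableEq V] [Fintype E] [DecidableEq E]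
    (ends : E → Sym2 V) (hloop : ∀ e, ¬ (ends e).IsDiag)
    (hdeg : ∀ v : V, Even (univ.filter (fun e : E => v ∈ ends e)).card) (B : W → Set V) (blk : E → W)
    (hB1 : ∀ e x, x ∈ ends e → x ∈ B (blk e))
    (hB2 : ∀ (w : W) (x y : V), x ≠ y → x ∈ B w → y ∈ B w → ∃! e : E, blk e = w ∧ ends e = s(x, y))
    (h3 : ∀ w, (B w).ncard ≠ 3)
    (h2 : ∀ w w' x, x ∈ B w → x ∈ B w' → (B w).ncard = 2 → (B w').ncard = 2 → w = w') :
    ∃ C₁ C₂ : Finset (Finset E),
        (∀ S ∈ C₁, S.Nonempty ∧ (∀ v : V, Even (S.filter (fun e => v ∈ ends e)).card) ∧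
            ∀ T ⊆ S, T.Nonempty → (∀ v : V, Even (T.filter (fun e => v ∈ ends e)).card) → T = S) ∧
        (∀ e : E, ∃! S, S ∈ C₁ ∧ e ∈ S) ∧
        (∀ S ∈ C₂, S.Nonempty ∧ (∀ v : V, Even (S.filter (fun e => v ∈ ends e)).card) ∧
            ∀ T ⊆ S, T.Nonempty → (∀ v : V, Even (T.filter (fun e => v ∈ ends e)).card) → T = S) ∧
        (∀ e : E, ∃! S, S ∈ C₂ ∧ e ∈ S) ∧
        (∀ v : V, ∀ S₁ ∈ C₁, ∀ S₂ ∈ C₂,
            ((S₁ ∩ S₂).filter (fun e => v ∈ ends e)).card ≤ 1) := by
  classical
  have hM := fun w => blockM (B w) (h3 w)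
  choose M M' z hG hG' hMM using hM
  obtain ⟨c, hc⟩ := label_fun ends B blk hB1 M z hG
  obtain ⟨c', hc'⟩ := label_fun ends B blk hB1 M' z hG'
  refine even_pair ends c c' (class_even ends hloop hdeg B blk hB1 hB2 M z hG c hc)
    (class_even ends hloop hdeg B blk hB1 hB2 M' z hG' c' hc') ?_
  intro v e f he hf hef h1 h1'
  have hsp : ∀ e, v ∈ ends e → ∃ y, ends e = s(v, y) ∧ y ≠ v ∧ y ∈ B (blk e) ∧ v ∈ B (blk e) := by
    rintro e ⟨y, hy⟩
    refine ⟨y, hy, ?_, ?_, ?_⟩
    · rintro rfl
      apply hloop e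
      rw [hy]
      exact Sym2.mk_isDiag_iff.2 rfl
    · exact hB1 e y (by rw [hy]; exact Sym2.mem_mk_right _ _)
    · exact hB1 e v (by rw [hy]; exact Sym2.mem_mk_left _ _)
  obtain ⟨y, hy, hyv, hyB, hvB⟩ := hsp e he
  obtain ⟨y', hy', hy'v, hy'B, hvB'⟩ := hsp f hf
  rw [hc e v y hy, hc f v y' hy'] at h1
  rw [hc' e v y hy, hc' f v y' hy'] at h1'
  by_cases hb : blk e = blk f
  · rw [← hb] at h1 h1' hy'B
    have hyy : y' ≠ y := by
      rintro rfl
      apply hef
      obtain ⟨g, _, hg⟩ := hB2 (blk e) v y' hyv.symm hvB hyB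
      rw [hg e ⟨rfl, hy⟩, hg f ⟨hb.symm, hy'⟩]
    have l1 := lab_same (hG (blk e)) (blk e) hvB hyB hy'B hyv hy'v h1
    have l2 := lab_same (hG' (blk e)) (blk e) hvB hyB hy'B hyv hy'v h1'
    have hn2 : (B (blk e)).ncard ≠ 2 := by
      intro h
      have h5 : ({v, y, y'} : Set V).ncard = 3 := Set.ncard_eq_three.2
        ⟨v, y, y', hyv.symm, hy'v.symm, hyy.symm, rfl⟩
      have h6 : ({v, y, y'} : Set V) ⊆ B (blk e) := by
        rintro x (rfl | rfl | rfl)
        · exact hvB
        · exact hyB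
        · exact hy'B
      have h7 := Set.ncard_le_ncard h6 (Set.toFinite _)
      omega
    have hmm := fun x hx hzx => hMM (blk e) x hx hzx hn2
    obtain ⟨a1, a2, a3, a4⟩ := hG (blk e)
    obtain ⟨b1, b2, b3, b4⟩ := hG' (blk e)
    rcases l1 with l1 | l1 | ⟨t, ht, htv, l1 | l1⟩
    · exact hyy l1
    · rcases l2 with l2 | l2 | ⟨t, ht, htv, l2 | l2⟩
      · exact hyy l2
      · refine hmm y hyB (fun h => ?_) (by rw [← l1, l2])
        have := (a3 y hyB).2 h
        exact hyy (by rw [l1, this])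
      · have : M (blk e) y = y := (a3 y hyB).2 (by rw [ht, l2.1])
        exact hyy (by rw [l1, this])
      · -- y' = t, y' = M y
        have h5 : M (blk e) y = t := by rw [← l1, l2.1]
        have h6 : M (blk e) t = t := (a3 t (a4 t ht)).2 ht
        have h7 := a2 y hyB
        rw [h5, h6] at h7
        exact hyy (by rw [l2.1, h7])
    · rcases l2 with l2 | l2 | ⟨t', ht', htv', l2 | l2⟩
      · exact hyy l2
      · have : M' (blk e) y = y := (b3 y hyB).2 (by rw [ht, l1.1])
        exact hyy (by rw [l2, this])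
      · refine hmm v hvB (fun h => ?_) (by rw [← l1.2, l2.2])
        rw [ht] at h
        exact htv (Option.some.inj h)
      · rw [ht] at ht'
        exact hyy (by rw [l2.1, l1.1, Option.some.inj ht'])
    · rcases l2 with l2 | l2 | ⟨t', ht', htv', l2 | l2⟩
      · exact hyy l2
      · have h5 : M' (blk e) y = t := by rw [← l2, l1.1]
        have h6 : M' (blk e) t = t := (b3 t (b4 t ht)).2 ht
        have h7 := b2 y hyB
        rw [h5, h6] at h7
        exact hyy (by rw [l1.1, h7])
      · rw [ht] at ht'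
        exact hyy (by rw [l1.1, l2.1, Option.some.inj ht'])
      · refine hmm v hvB (fun h => ?_) (by rw [← l1.2, l2.2])
        rw [ht] at h
        exact htv (Option.some.inj h)
  · obtain ⟨⟨a1, a2⟩, ⟨a3, a4⟩⟩ := lab_diff _ _ _ _ _ _ hb h1
    obtain ⟨⟨b1, b2⟩, ⟨b3, b4⟩⟩ := lab_diff _ _ _ _ _ _ hb h1'
    have e1 : (B (blk e)).ncard = 2 := by
      by_contra h
      exact hMM (blk e) v hvB (by rw [a1]; simp) h (by rw [a2, b2])
    have e2 : (B (blk f)).ncard = 2 := by
      by_contra h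
      exact hMM (blk f) v hvB' (by rw [a3]; simp) h (by rw [a4, b4])
    exact hb (h2 _ _ v hvB hvB' e1 e2)

end

end Pool.Agent.Helper45.CCE
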