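import Mathlib
import Pool.Agent.Helper45.CCD.Bd
import Pool.Agent.Helper45.CCE.Even

set_option autoImplicit false
set_option linter.all false

open Finset

namespace Pool.Agent.Helper45.CCE

open Pool.Agent.Helper45.CCD

section
variable {V Q : Type*} [Fintype V] [DecidableEq V] [Fintype Q] [DecidableEq Q]

/-- indicator function mod 2 -/
def ind (S : Finset Q) : Q → ZMod 2 := fun q => if q ∈ S then 1 else 0

theorem bd_ind (a b : Q → V) (hne : ∀ q, a q ≠ b q) (S : Finset Q) (v : V) :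
    bd a b (ind S) v = ((S.filter (fun q => v ∈ s(a q, b q))).card : ZMod 2) := by
  have h1 : ((S.filter (fun q => v ∈ s(a q, b q))).card : ZMod 2) =
      ∑ q, if q ∈ S then (if v ∈ s(a q, b q) then (1 : ZMod 2) else 0) else 0 := by
    rw [Finset.card_filter, Nat.cast_sum, Finset.sum_ite_mem, Finset.univ_inter]
    refine Finset.sum_congr rfl fun q _ => ?_
    split_ifs <;> simp
  rw [h1]
  simp only [bd, ind]
  refine Finset.sum_congr rfl fun q _ => ?_
  have hq := hne q
  by_cases h0 : q ∈ S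
  · by_cases h1 : a q = v
    · have h2 : b q ≠ v := fun h => hq (by rw [h1, h])
      have h3 : v ∈ s(a q, b q) := by rw [Sym2.mem_iff]; exact Or.inl h1.symm
      rw [if_pos h1, if_neg h2, if_pos h0, if_pos h0, if_pos h3, add_zero]
    · by_cases h2 : b q = v
      · have h3 : v ∈ s(a q, b q) := by rw [Sym2.mem_iff]; exact Or.inr h2.symm
        rw [if_neg h1, if_pos h2, if_pos h0, if_pos h0, if_pos h3, zero_add]
      · have h3 : v ∉ s(a q, b q) := by
          rw [Sym2.mem_iff]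
          rintro (h | h)
          · exact h1 h.symm
          · exact h2 h.symm
        rw [if_neg h1, if_neg h2, if_pos h0, if_neg h3, add_zero]
  · simp [h0]

theorem evenAt_iff (a b : Q → V) (hne : ∀ q, a q ≠ b q) (S : Finset Q) :
    EvenAt (fun q => s(a q, b q)) S ↔ bd a b (ind S) = 0 := by
  constructor
  · intro h
    funext v
    rw [bd_ind a b hne, Pi.zero_apply, ZMod.natCast_eq_zero_iff_even]
    exact h v
  · intro h v
    have := congrFun h v
    rw [bd_ind a b hne, Pi.zero_apply, ZMod.natCast_eq_zero_iff_even] at this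
    exact this

theorem zmod2_ne (x : ZMod 2) (h : x ≠ 0) : x = 1 := by
  revert x; decide

theorem ind_supp (Y : Q → ZMod 2) (T : Finset Q) (hT : ∀ q, q ∈ T ↔ Y q ≠ 0) : ind T = Y := by
  funext q
  unfold ind
  by_cases h : q ∈ T
  · rw [if_pos h, zmod2_ne _ ((hT q).1 h)]
  · rw [if_neg h]
    by_contra h'
    exact h ((hT q).2 (fun h2 => h' h2.symm))

/-- a minimal nonempty even set has degree 0 or 2 at every vertex -/
theorem min_deg2 (a b : Q → V) (hne : ∀ q, a q ≠ b q) (M : Finset Q)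
    (hM : EvenAt (fun q => s(a q, b q)) M)
    (hmin : ∀ T ⊆ M, T.Nonempty → EvenAt (fun q => s(a q, b q)) T → T = M)
    (v : V) (e : Q) (he : e ∈ M) (hve : v ∈ s(a e, b e)) :
    ∃ f, f ∈ M ∧ f ≠ e ∧ v ∈ s(a f, b f) ∧ ∀ g ∈ M, v ∈ s(a g, b g) → g = e ∨ g = f := by
  classical
  obtain ⟨u, hu⟩ := hve
  have huv : u ≠ v := by
    rintro rfl
    rcases Sym2.eq_iff.1 hu with ⟨h1, h2⟩ | ⟨h1, h2⟩
    · exact hne e (by rw [h1, h2])
    · exact hne e (by rw [h1, h2])
  let A : Q → Prop := fun q => q ∈ M ∧ v ∉ s(a q, b q)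
  let K : Finset V := univ.filter (fun w => Rch a b A u w)
  have hK : ∀ w, w ∈ K ↔ Rch a b A u w := fun w => by simp [K]
  have huK : u ∈ K := (hK u).2 Relation.ReflTransGen.refl
  have hvK : v ∉ K := by
    intro h
    have h1 := (hK v).1 h
    rcases Relation.ReflTransGen.cases_tail h1 with h2 | ⟨w, _, q, hq, h3⟩
    · exact huv h2.symm
    · apply hq.2
      rcases h3 with ⟨_, h4⟩ | ⟨h4, _⟩
      · rw [← h4]; exact Sym2.mem_mk_right _ _
      · rw [← h4]; exact Sym2.mem_mk_left _ _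
  have hcl : ∀ q, A q → (a q ∈ K ↔ b q ∈ K) := by
    intro q hq
    rw [hK, hK]
    exact ⟨fun h => h.trans' a b (Rch.edge a b hq), fun h => h.trans' a b (Rch.edge a b hq).symm⟩
  have hecr : cr a b K e := by
    intro h
    rcases Sym2.eq_iff.1 hu with ⟨h1, h2⟩ | ⟨h1, h2⟩
    · rw [h1, h2] at h
      exact hvK (h.2 huK)
    · rw [h1, h2] at h
      exact hvK (h.1 huK)
  have hsum : ∑ q ∈ univ.filter (cr a b K), ind M q = 0 := by
    rw [← sum_cut, (evenAt_iff a b hne M).1 hM]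
    simp
  have hf : ∃ f, f ≠ e ∧ cr a b K f ∧ f ∈ M := by
    by_contra hcon
    push Not at hcon
    rw [Finset.sum_eq_single_of_mem e (Finset.mem_filter.2 ⟨Finset.mem_univ _, hecr⟩)] at hsum
    · unfold ind at hsum
      rw [if_pos he] at hsum
      exact absurd hsum (by decide)
    · intro f hf hfe
      unfold ind
      rw [if_neg (hcon f hfe (Finset.mem_filter.1 hf).2)]
  obtain ⟨f, hfe, hfcr, hfM⟩ := hf
  have hvf : v ∈ s(a f, b f) := by
    by_contra h
    exact hfcr (hcl f ⟨hfM, h⟩)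
  obtain ⟨w, hw⟩ := hvf
  have hwK : w ∈ K := by
    by_contra h
    apply hfcr
    rcases Sym2.eq_iff.1 hw with ⟨h1, h2⟩ | ⟨h1, h2⟩
    · rw [h1, h2]; exact ⟨fun h' => absurd h' hvK, fun h' => absurd h' h⟩
    · rw [h1, h2]; exact ⟨fun h' => absurd h' h, fun h' => absurd h' hvK⟩
  obtain ⟨D, hD, hbD⟩ := join_of_reach a b ((hK w).1 hwK)
  let Y : Q → ZMod 2 := D + (Pi.single f 1 + Pi.single e 1)
  have hdle : dl (a e) (b e) = dl u v := by
    rcases Sym2.eq_iff.1 hu with ⟨h1, h2⟩ | ⟨h1, h2⟩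
    · rw [h1, h2, dl_comm]
    · rw [h1, h2]
  have hdlf : dl (a f) (b f) = dl w v := by
    rcases Sym2.eq_iff.1 hw with ⟨h1, h2⟩ | ⟨h1, h2⟩
    · rw [h1, h2, dl_comm]
    · rw [h1, h2]
  have hbY : bd a b Y = 0 := by
    show bd a b (D + (Pi.single f 1 + Pi.single e 1)) = 0
    rw [bd_add, bd_add, bd_single, bd_single, hbD, hdle, hdlf, dl_comm u v, ← add_assoc, dl_add,
      dl_add, dl_self]
  have hDv : ∀ q, v ∈ s(a q, b q) → D q = 0 := by
    intro q hq
    by_contra h
    exact (hD q h).2 hq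
  have hve' : v ∈ s(a e, b e) := ⟨u, hu⟩
  have hvf' : v ∈ s(a f, b f) := ⟨w, hw⟩
  have hYv : ∀ q, Y q = D q + ((Pi.single f 1 : Q → ZMod 2) q + (Pi.single e 1 : Q → ZMod 2) q) :=
    fun q => rfl
  let T : Finset Q := univ.filter (fun q => Y q ≠ 0)
  have hT : ∀ q, q ∈ T ↔ Y q ≠ 0 := fun q => by simp [T]
  have hTe : e ∈ T := by
    rw [hT, hYv, hDv e hve', Pi.single_eq_same, Pi.single_eq_of_ne hfe.symm]
    decide
  have hTM : T ⊆ M := by
    intro q hq
    rw [hT, hYv] at hq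
    by_cases h1 : q = e
    · rw [h1]; exact he
    · by_cases h2 : q = f
      · rw [h2]; exact hfM
      · rw [Pi.single_eq_of_ne h1, Pi.single_eq_of_ne h2, add_zero, add_zero] at hq
        exact (hD q hq).1
  have hTeq := hmin T hTM ⟨e, hTe⟩ ((evenAt_iff a b hne T).2 (by rw [ind_supp Y T hT]; exact hbY))
  refine ⟨f, hfM, hfe, hvf', ?_⟩
  intro g hg hvg
  rw [← hTeq, hT, hYv, hDv g hvg] at hg
  by_contra hcon
  push Not at hcon
  rw [Pi.single_eq_of_ne hcon.1, Pi.single_eq_of_ne hcon.2] at hg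
  exact hg (by decide)

end

end Pool.Agent.Helper45.CCE
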