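import Mathlib
import Pool.Agent.Helper45.CCD.Ext

set_option autoImplicit false
set_option linter.all false

open Finset

namespace Pool.Agent.Helper45.CCE

open Pool.Agent.Helper45.CCD

section
variable {V Q : Type*} [Fintype V] [DecidableEq V] [Fintype Q] [DecidableEq Q]

/-- the 8-flow theorem for bridgeless multigraphs, not necessarily connected -/
theorem flow_gen (a b : Q → V)
    (hcut : ∀ X : Finset V, (∃ e, cr a b X e) → ∃ e f, e ≠ f ∧ cr a b X e ∧ cr a b X f) :
    ∃ (C : Q → ZMod 2) (φ : Q → F4), bd a b C = 0 ∧ bd a b φ = 0 ∧ ∀ e, C e = 0 → φ e ≠ 0 := by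
  classical
  rcases isEmpty_or_nonempty V with hV | ⟨⟨r⟩⟩
  · exact ⟨0, 0, bd_zero a b, bd_zero a b, fun e => (hV.false (a e)).elim⟩
  let t : Setoid V :=
    { r := Rch a b (fun _ => True)
      iseqv := ⟨fun _ => Relation.ReflTransGen.refl, fun h => h.symm a b, fun h1 h2 => h1.trans' a b h2⟩ }
  let rep : V → V := fun v => Quotient.out (Quotient.mk t v)
  have hrep : ∀ v, Rch a b (fun _ => True) (rep v) v := by
    intro v
    exact Quotient.exact (Quotient.out_eq (Quotient.mk t v))
  have hrepeq : ∀ v w, Rch a b (fun _ => True) v w → rep v = rep w := by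
    intro v w h
    show Quotient.out (Quotient.mk t v) = Quotient.out (Quotient.mk t w)
    rw [Quotient.sound (s := t) h]
  let R : V → Prop := fun v => rep v = v
  have hRrep : ∀ v, R (rep v) := fun v => hrepeq _ _ (hrep v)
  let s : Setoid V :=
    { r := fun u v => u = v ∨ (R u ∧ R v)
      iseqv := ⟨fun _ => Or.inl rfl, fun h => by
        rcases h with h | ⟨h1, h2⟩
        · exact Or.inl h.symm
        · exact Or.inr ⟨h2, h1⟩, fun h h' => by
        rcases h with h | ⟨h1, h2⟩
        · rw [h]; exact h'
        · rcases h' with h' | ⟨h3, h4⟩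
          · rw [← h']; exact Or.inr ⟨h1, h2⟩
          · exact Or.inr ⟨h1, h4⟩⟩ }
  let a' : Q → Quotient s := fun e => Quotient.mk s (a e)
  let b' : Q → Quotient s := fun e => Quotient.mk s (b e)
  have hcut' : ∀ X : Finset (Quotient s), X.Nonempty → X ≠ univ →
      ∃ e f, e ≠ f ∧ cr a' b' X e ∧ cr a' b' X f := by
    intro X' hX' hX'u
    let X : Finset V := univ.filter (fun v => Quotient.mk s v ∈ X')
    have hmemX : ∀ v, v ∈ X ↔ Quotient.mk s v ∈ X' := fun v => by simp [X]
    have hcr : ∀ e, cr a b X e ↔ cr a' b' X' e := by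
      intro e
      unfold cr
      rw [hmemX, hmemX]
    have hex : ∃ e, cr a b X e := by
      by_contra hcon
      push Not at hcon
      have hcl : ∀ u v, Rch a b (fun _ => True) u v → u ∈ X → v ∈ X := by
        intro u v h hu
        induction h with
        | refl => exact hu
        | tail _ h2 ih =>
          obtain ⟨e, _, h3⟩ := h2
          have h4 : a e ∈ X ↔ b e ∈ X := by
            by_contra h; exact hcon e h
          rcases h3 with ⟨h5, h6⟩ | ⟨h5, h6⟩
          · rw [← h6, ← h4, h5]; exact ih
          · rw [← h5, h4, h6]; exact ih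
      obtain ⟨q, hq⟩ := hX'
      have hv : Quotient.out q ∈ X := (hmemX _).2 (by rw [Quotient.out_eq]; exact hq)
      have hrv : rep (Quotient.out q) ∈ X := hcl _ _ ((hrep _).symm a b) hv
      apply hX'u
      ext q'
      simp only [Finset.mem_univ, iff_true]
      have h1 : rep (Quotient.out q') ∈ X := by
        rw [hmemX]
        have : Quotient.mk s (rep (Quotient.out q')) = Quotient.mk s (rep (Quotient.out q)) :=
          Quotient.sound (Or.inr ⟨hRrep _, hRrep _⟩)
        rw [this, ← hmemX]; exact hrv
      have h2 : Quotient.out q' ∈ X := hcl _ _ (hrep _) h1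
      rw [hmemX, Quotient.out_eq] at h2
      exact h2
    obtain ⟨e, f, h1, h2, h3⟩ := hcut X hex
    exact ⟨e, f, h1, (hcr e).1 h2, (hcr f).1 h3⟩
  have hlift : ∀ {M : Type} [AddCommGroup M] [Module (ZMod 2) M] (x : Q → M),
      bd a' b' x = 0 → bd a b x = 0 := by
    intro M _ _ x hx
    have h1 : ∀ v, ¬ R v → bd a b x v = 0 := by
      intro v hv
      have h2 : bd a b x v = bd a' b' x (Quotient.mk s v) := by
        simp only [bd]
        refine Finset.sum_congr rfl fun e _ => ?_
        have key : ∀ u : V, (Quotient.mk s u = Quotient.mk s v) ↔ u = v := by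
          intro u
          constructor
          · intro h
            rcases Quotient.exact h with h' | ⟨_, h'⟩
            · exact h'
            · exact absurd h' hv
          · intro h; rw [h]
        have k1 := key (a e)
        have k2 := key (b e)
        simp only [a', b', k1, k2]
      rw [h2, hx]; rfl
    funext v
    rw [Pi.zero_apply]
    by_cases hv : R v
    · let K : Finset V := univ.filter (fun w => Rch a b (fun _ => True) v w)
      have hK : ∀ w, w ∈ K ↔ Rch a b (fun _ => True) v w := fun w => by simp [K]
      have h2 := sum_cut a b x K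
      have h3 : ∑ e ∈ univ.filter (cr a b K), x e = 0 := by
        refine Finset.sum_eq_zero fun e he => ?_
        exfalso
        apply (Finset.mem_filter.1 he).2
        rw [hK, hK]
        exact ⟨fun h => h.trans' a b (Rch.edge a b trivial), fun h => h.trans' a b (Rch.edge a b trivial).symm⟩
      rw [h3, Finset.sum_eq_single_of_mem v ((hK v).2 Relation.ReflTransGen.refl)] at h2
      · exact h2
      · intro w hw hwv
        apply h1
        intro hRw
        apply hwv
        have h4 := hrepeq v w ((hK w).1 hw)
        have h5 : rep v = v := hv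
        have h6 : rep w = w := hRw
        rw [← h5, ← h6, h4]
    · exact h1 v hv
  obtain ⟨C, φ, hC, hφ, hn⟩ := flow2 a' b' (Quotient.mk s r) hcut'
  exact ⟨C, φ, hlift C hC, hlift φ hφ, hn⟩

end

end Pool.Agent.Helper45.CCE
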