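import Mathlib
import Pool.Agent.Helper45.CCD.Local
import Pool.Agent.Helper45.CCE.Deg2

set_option autoImplicit false
set_option linter.all false

open Finset

namespace Pool.Agent.Helper45.CCE

open Pool.Agent.Helper45.CCD

/-- a system of equations `ε (p v) + ε (p' v) = r v` in which every nonempty subsystem has a
variable occurring in exactly one of its equations is solvable -/
theorem solve {R Q : Type*} [DecidableEq R] [DecidableEq Q] (p p' : R → Q) (r : R → ZMod 2) (n : ℕ) :
    ∀ S : Finset R, S.card = n → (∀ v ∈ S, p v ≠ p' v) →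
    (∀ T ⊆ S, T.Nonempty → ∃ v ∈ T, ∃ q, (q = p v ∨ q = p' v) ∧ ∀ w ∈ T, w ≠ v → q ≠ p w ∧ q ≠ p' w) →
    ∃ ε : Q → ZMod 2, ∀ v ∈ S, ε (p v) + ε (p' v) = r v := by
  induction n with
  | zero =>
    intro S hS _ _
    rw [Finset.card_eq_zero] at hS
    subst hS
    exact ⟨0, fun v hv => absurd hv (Finset.notMem_empty _)⟩
  | succ n ih =>
    intro S hS hne hleaf
    have hSne : S.Nonempty := by
      rw [← Finset.card_pos]; omega
    obtain ⟨v, hv, q, hq, hq'⟩ := hleaf S (Finset.Subset.refl _) hSne
    obtain ⟨ε', hε'⟩ := ih (S.erase v) (by rw [Finset.card_erase_of_mem hv]; omega)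
      (fun w hw => hne w (Finset.mem_of_mem_erase hw))
      (fun T hT hTn => hleaf T (hT.trans (Finset.erase_subset _ _)) hTn)
    have hvne := hne v hv
    rcases hq with rfl | rfl
    · refine ⟨Function.update ε' (p v) (r v + ε' (p' v)), ?_⟩
      intro w hw
      by_cases hwv : w = v
      · subst hwv
        rw [Function.update_self, Function.update_of_ne hvne.symm, add_assoc, zmod2_add_self, add_zero]
      · obtain ⟨h1, h2⟩ := hq' w hw hwv
        rw [Function.update_of_ne h1.symm, Function.update_of_ne h2.symm]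
        exact hε' w (Finset.mem_erase.2 ⟨hwv, hw⟩)
    · refine ⟨Function.update ε' (p' v) (r v + ε' (p v)), ?_⟩
      intro w hw
      by_cases hwv : w = v
      · subst hwv
        rw [Function.update_self, Function.update_of_ne hvne, add_comm, add_assoc, zmod2_add_self, add_zero]
      · obtain ⟨h1, h2⟩ := hq' w hw hwv
        rw [Function.update_of_ne h1.symm, Function.update_of_ne h2.symm]
        exact hε' w (Finset.mem_erase.2 ⟨hwv, hw⟩)

section
variable {V Q : Type*} [Fintype V] [DecidableEq V] [Fintype Q] [DecidableEq Q]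

/-- signs along a circuit containing a zero edge -/
theorem circuit_sign (a b : Q → V) (hne : ∀ q, a q ≠ b q) (M : Finset Q)
    (hM : EvenAt (fun q => s(a q, b q)) M)
    (hmin : ∀ T ⊆ M, T.Nonempty → EvenAt (fun q => s(a q, b q)) T → T = M)
    (φ : Q → G4) (q0 : Q) (hq0 : q0 ∈ M) (hφ0 : φ q0 = 0) :
    ∃ ε : Q → ZMod 2, ∀ v : V, ∀ q ∈ M, ∀ q' ∈ M, v ∈ s(a q, b q) → v ∈ s(a q', b q') → q ≠ q' →
      φ q ≠ 0 → φ q' ≠ 0 → ε q + ε q' = if φ q = φ q' then 1 else 0 := by
  classical
  -- vertices with a constraint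
  let R : V → Prop := fun v => ∃ q q', q ∈ M ∧ q' ∈ M ∧ v ∈ s(a q, b q) ∧ v ∈ s(a q', b q') ∧
    q ≠ q' ∧ φ q ≠ 0 ∧ φ q' ≠ 0
  let S : Finset V := univ.filter R
  have hS : ∀ v, v ∈ S ↔ R v := fun v => by simp [S]
  have hex : ∀ v : V, ∃ pp : Q × Q, R v → (pp.1 ∈ M ∧ pp.2 ∈ M ∧ v ∈ s(a pp.1, b pp.1) ∧
      v ∈ s(a pp.2, b pp.2) ∧ pp.1 ≠ pp.2 ∧ φ pp.1 ≠ 0 ∧ φ pp.2 ≠ 0) := by
    intro v
    by_cases h : R v
    · obtain ⟨q, q', h'⟩ := h
      exact ⟨(q, q'), fun _ => h'⟩
    · exact ⟨(q0, q0), fun h' => absurd h' h⟩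
  choose pp hpp using hex
  have hpair : ∀ v, R v → ∀ q ∈ M, v ∈ s(a q, b q) → q = (pp v).1 ∨ q = (pp v).2 := by
    intro v hv q hq hvq
    obtain ⟨h1, h2, h3, h4, h5, h6, h7⟩ := hpp v hv
    obtain ⟨f, hf1, hf2, hf3, hf4⟩ := min_deg2 a b hne M hM hmin v _ h1 h3
    have h8 : (pp v).2 = f := by
      rcases hf4 _ h2 h4 with h | h
      · exact absurd h h5.symm
      · exact h
    rcases hf4 q hq hvq with h | h
    · exact Or.inl h
    · right; rw [h, h8]
  obtain ⟨ε, hε⟩ := solve (fun v => (pp v).1) (fun v => (pp v).2)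
    (fun v => if φ (pp v).1 = φ (pp v).2 then (1 : ZMod 2) else 0) _ S rfl
    (fun v hv => (hpp v ((hS v).1 hv)).2.2.2.2.1) (by
      intro T hT hTn
      have hcross : ∃ q ∈ M, ¬ (a q ∈ T ↔ b q ∈ T) := by
        by_contra hcon
        push Not at hcon
        let N : Finset Q := M.filter (fun q => a q ∈ T)
        have hN : ∀ q, q ∈ N ↔ q ∈ M ∧ a q ∈ T := fun q => Finset.mem_filter
        have hNM : N ⊆ M := Finset.filter_subset _ _
        have hNn : N.Nonempty := by
          obtain ⟨v, hv⟩ := hTn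
          obtain ⟨h1, h2, h3, _⟩ := hpp v ((hS v).1 (hT hv))
          refine ⟨(pp v).1, (hN _).2 ⟨h1, ?_⟩⟩
          rcases Sym2.mem_iff.1 h3 with h | h
          · rw [← h]; exact hv
          · rw [hcon _ h1, ← h]; exact hv
        have hNe : EvenAt (fun q => s(a q, b q)) N := by
          intro v
          by_cases hv : v ∈ T
          · have : N.filter (fun q => v ∈ s(a q, b q)) = M.filter (fun q => v ∈ s(a q, b q)) := by
              ext q
              rw [Finset.mem_filter, hN, Finset.mem_filter]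
              constructor
              · rintro ⟨⟨h1, _⟩, h2⟩; exact ⟨h1, h2⟩
              · rintro ⟨h1, h2⟩
                refine ⟨⟨h1, ?_⟩, h2⟩
                rcases Sym2.mem_iff.1 h2 with h | h
                · rw [← h]; exact hv
                · rw [hcon _ h1, ← h]; exact hv
            show Even (N.filter (fun q => v ∈ s(a q, b q))).card
            rw [this]; exact hM v
          · have : N.filter (fun q => v ∈ s(a q, b q)) = ∅ := by
              apply Finset.filter_false_of_mem
              intro q hq h2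
              obtain ⟨h1, h3⟩ := (hN q).1 hq
              rcases Sym2.mem_iff.1 h2 with h | h
              · apply hv; rw [h]; exact h3
              · apply hv; rw [h, ← hcon _ h1]; exact h3
            show Even (N.filter (fun q => v ∈ s(a q, b q))).card
            rw [this]; simp
        have hNeq := hmin N hNM hNn hNe
        have h4 : a q0 ∈ T := ((hN q0).1 (by rw [hNeq]; exact hq0)).2
        have h5 := (hS _).1 (hT h4)
        obtain ⟨_, _, _, _, _, h6, h7⟩ := hpp _ h5
        rcases hpair _ h5 q0 hq0 (Sym2.mem_mk_left _ _) with h | h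
        · rw [← h] at h6; exact h6 hφ0
        · rw [← h] at h7; exact h7 hφ0
      obtain ⟨q, hqM, hq⟩ := hcross
      by_cases h1 : a q ∈ T
      · have h2 : b q ∉ T := fun h => hq ⟨fun _ => h, fun _ => h1⟩
        refine ⟨a q, h1, q, hpair _ ((hS _).1 (hT h1)) q hqM (Sym2.mem_mk_left _ _), ?_⟩
        intro w hw hwa
        obtain ⟨_, _, h3, h4, _⟩ := hpp w ((hS _).1 (hT hw))
        constructor
        · intro h
          rw [← h] at h3
          rcases Sym2.mem_iff.1 h3 with h5 | h5
          · exact hwa h5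
          · exact h2 (by rw [← h5]; exact hw)
        · intro h
          rw [← h] at h4
          rcases Sym2.mem_iff.1 h4 with h5 | h5
          · exact hwa h5
          · exact h2 (by rw [← h5]; exact hw)
      · have h2 : b q ∈ T := by
          by_contra h
          exact hq ⟨fun h' => absurd h' h1, fun h' => absurd h' h⟩
        refine ⟨b q, h2, q, hpair _ ((hS _).1 (hT h2)) q hqM (Sym2.mem_mk_right _ _), ?_⟩
        intro w hw hwa
        obtain ⟨_, _, h3, h4, _⟩ := hpp w ((hS _).1 (hT hw))
        constructor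
        · intro h
          rw [← h] at h3
          rcases Sym2.mem_iff.1 h3 with h5 | h5
          · exact h1 (by rw [← h5]; exact hw)
          · exact hwa h5
        · intro h
          rw [← h] at h4
          rcases Sym2.mem_iff.1 h4 with h5 | h5
          · exact h1 (by rw [← h5]; exact hw)
          · exact hwa h5)
  refine ⟨ε, ?_⟩
  intro v q hq q' hq' hv hv' hqq hφ hφ'
  have hR : R v := ⟨q, q', hq, hq', hv, hv', hqq, hφ, hφ'⟩
  have h1 := hε v ((hS v).2 hR)
  rcases hpair v hR q hq hv with h2 | h2 <;> rcases hpair v hR q' hq' hv' with h3 | h3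
  · exact absurd (h2.trans h3.symm) hqq
  · rw [h2, h3]; exact h1
  · rw [h2, h3, add_comm]
    rw [h1]
    by_cases h4 : φ (pp v).1 = φ (pp v).2
    · rw [if_pos h4, if_pos h4.symm]
    · rw [if_neg h4, if_neg (fun h => h4 h.symm)]
  · exact absurd (h2.trans h3.symm) hqq

end

end Pool.Agent.Helper45.CCE
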