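import Mathlib
import Pool.Agent.Helper45.CCE.Solve
import Pool.Agent.Helper45.CCE.Flow

set_option autoImplicit false
set_option linter.all false

open Finset

namespace Pool.Agent.Helper45.CCE

open Pool.Agent.Helper45.CCD

/-- colours -/
def col (α : G4) (x : ZMod 2) : G4 := if x = 0 then rho α else rho (rho α)
/-- a boolean mod 2 -/
def bz (i : Bool) : ZMod 2 := if i then 1 else 0
/-- the functional with kernel `0, γ` -/
def lam (γ x : G4) : ZMod 2 := if x = 0 ∨ x = γ then 0 else 1

theorem col_ok : ∀ (α : G4) (x : ZMod 2), α ≠ 0 → col α x ≠ 0 ∧ col α x ≠ α := by decide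
theorem col_inj : ∀ (α : G4) (x : ZMod 2) (i j : Bool), α ≠ 0 → col α (x + bz i) = col α (x + bz j) → i = j := by
  decide
theorem col_ex : ∀ (α γ : G4) (x : ZMod 2), α ≠ 0 → γ ≠ 0 → α ≠ γ → ∃ i : Bool, col α (x + bz i) = γ := by
  decide
theorem col_key : ∀ (α β : G4) (x y : ZMod 2) (i : Bool), α ≠ 0 → β ≠ 0 →
    x + y = (if α = β then 1 else 0) → col α (x + bz i) ≠ col β (y + bz i) := by
  decide
theorem lam_add : ∀ γ x y : G4, γ ≠ 0 → lam γ (x + y) = lam γ x + lam γ y := by decide
theorem lam_zero : ∀ γ : G4, lam γ 0 = 0 := by decide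
theorem lam_ne : ∀ γ x : G4, lam γ x ≠ 0 ↔ x ≠ 0 ∧ x ≠ γ := by decide
theorem g4_self : ∀ x : G4, x + x = 0 := by decide

section
variable {V Q : Type} [Fintype V] [DecidableEq V] [Fintype Q] [DecidableEq Q]

theorem bd_sum' {M ι : Type*} [AddCommMonoid M] (a b : Q → V) (s : Finset ι) (x : ι → Q → M) :
    bd a b (∑ i ∈ s, x i) = ∑ i ∈ s, bd a b (x i) := by
  classical
  induction s using Finset.induction_on with
  | empty => rw [Finset.sum_empty, Finset.sum_empty, bd_zero]
  | insert i s hi ih => rw [Finset.sum_insert hi, Finset.sum_insert hi, bd_add, ih]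

theorem bd_lam (a b : Q → V) (γ : G4) (hγ : γ ≠ 0) (φ : Q → G4) (hφ : bd a b φ = 0) :
    bd a b (fun q => lam γ (φ q)) = 0 := by
  let f : G4 →+ ZMod 2 := AddMonoidHom.mk' (lam γ) (fun x y => lam_add γ x y hγ)
  have h : ∀ v, bd a b (fun q => lam γ (φ q)) v = f (bd a b φ v) := by
    intro v
    simp only [bd, map_sum, map_add]
    refine Finset.sum_congr rfl fun q _ => ?_
    have h1 : f (φ q) = lam γ (φ q) := rfl
    split_ifs <;> simp [h1]
  funext v
  rw [h, hφ]
  exact lam_zero γ

theorem fiber1 (a b : Q → V) (S : Finset Q) (S' : Finset (Q × Bool))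
    (h1 : ∀ q, q ∈ S ↔ ∃ i, (q, i) ∈ S') (h2 : ∀ q i j, (q, i) ∈ S' → (q, j) ∈ S' → i = j)
    (hS : EvenAt (fun q => s(a q, b q)) S) :
    EvenAt (fun e : Q × Bool => s(a e.1, b e.1)) S' := by
  intro v
  have : (S'.filter (fun e : Q × Bool => v ∈ s(a e.1, b e.1))).card =
      (S.filter (fun q => v ∈ s(a q, b q))).card := by
    refine Finset.card_nbij (fun e => e.1) ?_ ?_ ?_
    · rintro ⟨q, i⟩ h
      rw [Finset.mem_coe, Finset.mem_filter] at h
      rw [Finset.mem_coe, Finset.mem_filter]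
      exact ⟨(h1 q).2 ⟨i, h.1⟩, h.2⟩
    · rintro ⟨q, i⟩ h ⟨q', j⟩ h' (hqq : q = q')
      subst hqq
      rw [Finset.mem_coe, Finset.mem_filter] at h h'
      rw [h2 q i j h.1 h'.1]
    · intro q h
      rw [Finset.mem_coe, Finset.mem_filter] at h
      obtain ⟨i, hi⟩ := (h1 q).1 h.1
      exact ⟨(q, i), by rw [Finset.mem_coe, Finset.mem_filter]; exact ⟨hi, h.2⟩, rfl⟩
  rw [this]
  exact hS v

theorem fiber2 (a b : Q → V) (S' : Finset (Q × Bool)) (h : ∀ q i j, (q, i) ∈ S' → (q, j) ∈ S') :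
    EvenAt (fun e : Q × Bool => s(a e.1, b e.1)) S' := by
  intro v
  have key : ∀ T : Finset (Q × Bool), (∀ q i j, (q, i) ∈ T → (q, j) ∈ T) → Even T.card := by
    intro T hT
    have hs : ∑ e ∈ T, (1 : ZMod 2) = 0 := by
      refine Finset.sum_involution (fun e _ => (e.1, !e.2)) ?_ ?_ ?_ ?_
      · intro e he; decide
      · rintro ⟨q, i⟩ he _ heq
        have h1 : (!i) = i := (Prod.ext_iff.1 heq).2
        cases i <;> exact absurd h1 (by decide)
      · rintro ⟨q, i⟩ he; exact hT q i _ he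
      · rintro ⟨q, i⟩ he
        show (q, !!i) = (q, i)
        rw [Bool.not_not]
    rw [Finset.sum_const, nsmul_eq_mul, mul_one] at hs
    exact (ZMod.natCast_eq_zero_iff_even).1 hs
  apply key
  intro q i j hq
  rw [Finset.mem_filter] at hq ⊢
  exact ⟨h q i j hq.1, hq.2⟩

theorem double_labels (a b : Q → V) (hne : ∀ q, a q ≠ b q)
    (hcut : ∀ X : Finset V, (∃ e, cr a b X e) → ∃ e f, e ≠ f ∧ cr a b X e ∧ cr a b X f) :
    ∃ (c : Q × Bool → Q ⊕ G4) (c' : Q × Bool → Q ⊕ (Finset Q × Bool)),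
      (∀ l S', (∀ e, e ∈ S' ↔ c e = l) → EvenAt (fun e : Q × Bool => s(a e.1, b e.1)) S') ∧
      (∀ l S', (∀ e, e ∈ S' ↔ c' e = l) → EvenAt (fun e : Q × Bool => s(a e.1, b e.1)) S') ∧
      ∀ (x : V) (e f : Q × Bool), x ∈ s(a e.1, b e.1) → x ∈ s(a f.1, b f.1) → e ≠ f → c e = c f →
        c' e ≠ c' f := by
  classical
  obtain ⟨C, φ0, hC, hφ0, hn0⟩ := flow_gen a b hcut
  let Cs : Finset Q := univ.filter (fun q => C q ≠ 0)
  have hCs : ∀ q, q ∈ Cs ↔ C q ≠ 0 := fun q => by simp [Cs]
  have hCe : EvenAt (fun q => s(a q, b q)) Cs := (evenAt_iff a b hne Cs).2 (by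
    rw [ind_supp C Cs hCs]; exact hC)
  obtain ⟨Zs, hZ1, hZ2, _⟩ := even_labels (fun q => s(a q, b q)) (fun _ : Q => ()) _ Cs rfl (by
    intro l S' hS'
    have : S' = Cs := by
      ext e; rw [hS']; simp
    rw [this]; exact hCe)
  have hZex : ∀ q : Q, ∃ Z : Finset Q, q ∈ Cs → (Z ∈ Zs ∧ q ∈ Z ∧ ∀ Z', Z' ∈ Zs → q ∈ Z' → Z' = Z) := by
    intro q
    by_cases h : q ∈ Cs
    · obtain ⟨Z, hZ, hu⟩ := hZ2 q h
      exact ⟨Z, fun _ => ⟨hZ.1, hZ.2, fun Z' h1 h2 => hu Z' ⟨h1, h2⟩⟩⟩
    · exact ⟨∅, fun h' => absurd h' h⟩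
  choose Zf hZf using hZex
  let val : Finset Q → G4 := fun Z => if h : Z.Nonempty then φ0 h.choose else 0
  have hval : ∀ Z ∈ Zs, ∃ q ∈ Z, φ0 q = val Z := by
    intro Z hZ
    have h := (hZ1 Z hZ).2.1
    refine ⟨h.choose, h.choose_spec, ?_⟩
    show φ0 h.choose = if h : Z.Nonempty then φ0 h.choose else 0
    rw [dif_pos h]
  let φ : Q → G4 := φ0 + ∑ Z ∈ Zs, (fun q => ind Z q • val Z)
  have hφ : bd a b φ = 0 := by
    show bd a b (φ0 + ∑ Z ∈ Zs, (fun q => ind Z q • val Z)) = 0
    rw [bd_add, hφ0, zero_add, bd_sum']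
    refine Finset.sum_eq_zero fun Z hZ => ?_
    rw [bd_smul, (evenAt_iff a b hne Z).1 (hZ1 Z hZ).2.2.1]
    funext v
    simp
  have hφin : ∀ Z ∈ Zs, ∀ q ∈ Z, φ q = φ0 q + val Z := by
    intro Z hZ q hq
    have hqC : q ∈ Cs := (hZ1 Z hZ).1 hq
    show (φ0 + ∑ Z ∈ Zs, (fun q => ind Z q • val Z)) q = φ0 q + val Z
    rw [Pi.add_apply, Finset.sum_apply, Finset.sum_eq_single_of_mem Z hZ]
    · unfold ind; rw [if_pos hq, one_smul]
    · intro Z' hZ' hne'
      have : q ∉ Z' := by
        intro h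
        apply hne'
        rw [(hZf q hqC).2.2 Z' hZ' h, (hZf q hqC).2.2 Z hZ hq]
      unfold ind; rw [if_neg this, zero_smul]
  have hφout : ∀ q, q ∉ Cs → φ q = φ0 q := by
    intro q hq
    show (φ0 + ∑ Z ∈ Zs, (fun q => ind Z q • val Z)) q = φ0 q
    rw [Pi.add_apply, Finset.sum_apply, Finset.sum_eq_zero, add_zero]
    intro Z hZ
    have : q ∉ Z := fun h => hq ((hZ1 Z hZ).1 h)
    unfold ind; rw [if_neg this, zero_smul]
  have hn : ∀ q, φ q = 0 → C q ≠ 0 := by
    intro q hq hc
    have h1 : q ∉ Cs := fun h => (hCs q).1 h hc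
    rw [hφout q h1] at hq
    exact hn0 q hc hq
  -- signs
  have hsign : ∀ Z : Finset Q, ∃ ε : Q → ZMod 2, Z ∈ Zs → ∀ v : V, ∀ q ∈ Z, ∀ q' ∈ Z,
      v ∈ s(a q, b q) → v ∈ s(a q', b q') → q ≠ q' → φ q ≠ 0 → φ q' ≠ 0 →
      ε q + ε q' = if φ q = φ q' then 1 else 0 := by
    intro Z
    by_cases hZ : Z ∈ Zs
    · obtain ⟨q0, hq0, hv0⟩ := hval Z hZ
      obtain ⟨_, _, h2, h3⟩ := hZ1 Z hZ
      obtain ⟨ε, hε⟩ := circuit_sign a b hne Z h2 h3 φ q0 hq0 (by
        rw [hφin Z hZ q0 hq0, hv0]; exact g4_self _)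
      exact ⟨ε, fun _ => hε⟩
    · exact ⟨0, fun h => absurd h hZ⟩
  choose εf hεf using hsign
  let ε : Q → ZMod 2 := fun q => εf (Zf q) q
  let c : Q × Bool → Q ⊕ G4 := fun e =>
    if φ e.1 = 0 then Sum.inl e.1 else Sum.inr (col (φ e.1) (ε e.1 + bz e.2))
  let c' : Q × Bool → Q ⊕ (Finset Q × Bool) := fun e =>
    if C e.1 = 0 then Sum.inl e.1 else Sum.inr (Zf e.1, e.2)
  have hc0 : ∀ q i, φ q = 0 → c (q, i) = Sum.inl q := fun q i h => if_pos h
  have hc1 : ∀ q i, φ q ≠ 0 → c (q, i) = Sum.inr (col (φ q) (ε q + bz i)) := fun q i h => if_neg h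
  have hc0' : ∀ q i, C q = 0 → c' (q, i) = Sum.inl q := fun q i h => if_pos h
  have hc1' : ∀ q i, C q ≠ 0 → c' (q, i) = Sum.inr (Zf q, i) := fun q i h => if_neg h
  refine ⟨c, c', ?_, ?_, ?_⟩
  · rintro (q0 | γ) S' hS'
    · apply fiber2
      intro q i j hq
      rw [hS'] at hq ⊢
      by_cases h : φ q = 0
      · rw [hc0 q i h] at hq
        rw [hc0 q j h]; exact hq
      · rw [hc1 q i h] at hq
        exact absurd hq (by simp)
    · by_cases hγ : γ = 0
      · have : S' = ∅ := by
          apply Finset.eq_empty_of_forall_notMem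
          rintro ⟨q, i⟩ hq
          rw [hS'] at hq
          by_cases h : φ q = 0
          · rw [hc0 q i h] at hq
            exact absurd hq (by simp)
          · rw [hc1 q i h] at hq
            exact (col_ok _ _ h).1 ((Sum.inr.inj hq).trans hγ)
        rw [this]; exact evenAt_empty _
      · apply fiber1 a b (univ.filter (fun q => lam γ (φ q) ≠ 0)) S'
        · intro q
          rw [Finset.mem_filter]
          simp only [Finset.mem_univ, true_and]
          rw [lam_ne]
          constructor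
          · rintro ⟨h1, h2⟩
            obtain ⟨i, hi⟩ := col_ex (φ q) γ (ε q) h1 hγ h2
            refine ⟨i, ?_⟩
            rw [hS', hc1 q i h1, hi]
          · rintro ⟨i, hi⟩
            rw [hS'] at hi
            by_cases h : φ q = 0
            · rw [hc0 q i h] at hi
              exact absurd hi (by simp)
            · rw [hc1 q i h] at hi
              have h3 := Sum.inr.inj hi
              refine ⟨h, ?_⟩
              intro h4
              exact (col_ok (φ q) (ε q + bz i) h).2 (by rw [h3, h4])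
        · intro q i j h1 h2
          rw [hS'] at h1 h2
          by_cases h : φ q = 0
          · rw [hc0 q i h] at h1
            exact absurd h1 (by simp)
          · rw [hc1 q i h] at h1
            rw [hc1 q j h] at h2
            exact col_inj _ _ _ _ h ((Sum.inr.inj h1).trans (Sum.inr.inj h2).symm)
        · rw [evenAt_iff a b hne, ind_supp (fun q => lam γ (φ q)) _ (fun q => by simp)]
          exact bd_lam a b γ hγ φ hφ
  · rintro (q0 | ⟨Z, i0⟩) S' hS'
    · apply fiber2
      intro q i j hq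
      rw [hS'] at hq ⊢
      by_cases h : C q = 0
      · rw [hc0' q i h] at hq
        rw [hc0' q j h]; exact hq
      · rw [hc1' q i h] at hq
        exact absurd hq (by simp)
    · by_cases hZ : Z ∈ Zs
      · apply fiber1 a b Z S'
        · intro q
          constructor
          · intro hq
            have hqC := (hZ1 Z hZ).1 hq
            refine ⟨i0, ?_⟩
            rw [hS', hc1' q i0 ((hCs q).1 hqC), (hZf q hqC).2.2 Z hZ hq]
          · rintro ⟨i, hi⟩
            rw [hS'] at hi
            by_cases h : C q = 0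
            · rw [hc0' q i h] at hi
              exact absurd hi (by simp)
            · rw [hc1' q i h] at hi
              have h1 := (Prod.ext_iff.1 (Sum.inr.inj hi)).1
              have h2 := (hZf q ((hCs q).2 h)).2.1
              have h1' : Zf q = Z := h1
              rw [← h1']; exact h2
        · intro q i j h1 h2
          rw [hS'] at h1 h2
          by_cases h : C q = 0
          · rw [hc0' q i h] at h1
            exact absurd h1 (by simp)
          · rw [hc1' q i h] at h1
            rw [hc1' q j h] at h2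
            have h3 := (Prod.ext_iff.1 (Sum.inr.inj h1)).2
            have h4 := (Prod.ext_iff.1 (Sum.inr.inj h2)).2
            exact h3.trans h4.symm
        · exact (hZ1 Z hZ).2.2.1
      · have : S' = ∅ := by
          apply Finset.eq_empty_of_forall_notMem
          rintro ⟨q, i⟩ hq
          rw [hS'] at hq
          by_cases h : C q = 0
          · rw [hc0' q i h] at hq
            exact absurd hq (by simp)
          · rw [hc1' q i h] at hq
            have h1 := (Prod.ext_iff.1 (Sum.inr.inj hq)).1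
            have h1' : Zf q = Z := h1
            exact hZ (by rw [← h1']; exact (hZf q ((hCs q).2 h)).1)
        rw [this]; exact evenAt_empty _
  · rintro x ⟨q, i⟩ ⟨q', j⟩ hx hx' hef hcc hcc'
    by_cases hC0 : C q = 0
    · rw [hc0' q i hC0] at hcc'
      by_cases hC0' : C q' = 0
      · rw [hc0' q' j hC0'] at hcc'
        have hqq := Sum.inl.inj hcc'
        subst hqq
        have hφq : φ q ≠ 0 := fun h => hn q h hC0
        rw [hc1 q i hφq, hc1 q j hφq] at hcc
        exact hef (by rw [col_inj _ _ _ _ hφq (Sum.inr.inj hcc)])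
      · rw [hc1' q' j hC0'] at hcc'
        exact absurd hcc' (by simp)
    · rw [hc1' q i hC0] at hcc'
      by_cases hC0' : C q' = 0
      · rw [hc0' q' j hC0'] at hcc'
        exact absurd hcc' (by simp)
      · rw [hc1' q' j hC0'] at hcc'
        have h1 := Prod.ext_iff.1 (Sum.inr.inj hcc')
        have h2 : Zf q = Zf q' := h1.1
        have h3 : i = j := h1.2
        subst h3
        have hqq : q ≠ q' := fun h => hef (by rw [h])
        have hqC := (hCs q).2 hC0
        have hqC' := (hCs q').2 hC0'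
        by_cases hφq : φ q = 0
        · rw [hc0 q i hφq] at hcc
          by_cases hφq' : φ q' = 0
          · rw [hc0 q' i hφq'] at hcc
            exact hqq (Sum.inl.inj hcc)
          · rw [hc1 q' i hφq'] at hcc
            exact absurd hcc (by simp)
        · rw [hc1 q i hφq] at hcc
          by_cases hφq' : φ q' = 0
          · rw [hc0 q' i hφq'] at hcc
            exact absurd hcc (by simp)
          · rw [hc1 q' i hφq'] at hcc
            have h5 := hεf (Zf q) (hZf q hqC).1 x q (hZf q hqC).2.1 q' (by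
              rw [h2]; exact (hZf q' hqC').2.1) hx hx' hqq hφq hφq'
            have h6 : ε q + ε q' = if φ q = φ q' then 1 else 0 := by
              show εf (Zf q) q + εf (Zf q') q' = _
              rw [← h2]; exact h5
            exact col_key _ _ _ _ i hφq hφq' h6 (Sum.inr.inj hcc)

end

end Pool.Agent.Helper45.CCE
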