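import Mathlib
import Pool.Agent.Helper45.CCE.Solve

set_option autoImplicit false
set_option linter.all false

open Finset

namespace Pool.Agent.Helper45.CCE

open Pool.Agent.Helper45.CCD

/-- a system of constraints between pairs of variables in which every nonempty subsystem has a
variable occurring in exactly one of its constraints, and any value of one variable of a constraint
can be completed, is solvable -/
theorem solve_opt {R Q S : Type*} [DecidableEq R] [DecidableEq Q] (p p' : R → Q) (Vl : Q → S → Prop)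
    (Rl : S → S → Prop) (hsym : ∀ s s', Rl s s' → Rl s' s) (h0 : ∀ q, ∃ s, Vl q s)
    (fwd : ∀ q q' s, Vl q s → ∃ s', Vl q' s' ∧ Rl s s') (n : ℕ) :
    ∀ T : Finset R, T.card = n → (∀ v ∈ T, p v ≠ p' v) →
    (∀ T' ⊆ T, T'.Nonempty → ∃ v ∈ T', ∃ q, (q = p v ∨ q = p' v) ∧
      ∀ w ∈ T', w ≠ v → q ≠ p w ∧ q ≠ p' w) →
    ∃ σ : Q → S, (∀ q, Vl q (σ q)) ∧ ∀ v ∈ T, Rl (σ (p v)) (σ (p' v)) := by
  induction n with
  | zero =>
    intro T hT _ _
    rw [Finset.card_eq_zero] at hT
    subst hT
    choose σ hσ using h0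
    exact ⟨σ, hσ, fun v hv => absurd hv (Finset.notMem_empty _)⟩
  | succ n ih =>
    intro T hT hne hleaf
    have hTne : T.Nonempty := by
      rw [← Finset.card_pos]; omega
    obtain ⟨v, hv, q, hq, hq'⟩ := hleaf T (Finset.Subset.refl _) hTne
    obtain ⟨σ', hσ1, hσ2⟩ := ih (T.erase v) (by rw [Finset.card_erase_of_mem hv]; omega)
      (fun w hw => hne w (Finset.mem_of_mem_erase hw))
      (fun T' hT' hTn => hleaf T' (hT'.trans (Finset.erase_subset _ _)) hTn)
    have hvne := hne v hv
    rcases hq with rfl | rfl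
    · obtain ⟨s, hs1, hs2⟩ := fwd (p' v) (p v) (σ' (p' v)) (hσ1 _)
      refine ⟨Function.update σ' (p v) s, ?_, ?_⟩
      · intro q
        by_cases h : q = p v
        · subst h; rw [Function.update_self]; exact hs1
        · rw [Function.update_of_ne h]; exact hσ1 q
      · intro w hw
        by_cases hwv : w = v
        · subst hwv
          rw [Function.update_self, Function.update_of_ne hvne.symm]
          exact hsym _ _ hs2
        · obtain ⟨h1, h2⟩ := hq' w hw hwv
          rw [Function.update_of_ne h1.symm, Function.update_of_ne h2.symm]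
          exact hσ2 w (Finset.mem_erase.2 ⟨hwv, hw⟩)
    · obtain ⟨s, hs1, hs2⟩ := fwd (p v) (p' v) (σ' (p v)) (hσ1 _)
      refine ⟨Function.update σ' (p' v) s, ?_, ?_⟩
      · intro q
        by_cases h : q = p' v
        · subst h; rw [Function.update_self]; exact hs1
        · rw [Function.update_of_ne h]; exact hσ1 q
      · intro w hw
        by_cases hwv : w = v
        · subst hwv
          rw [Function.update_self, Function.update_of_ne hvne]
          exact hs2
        · obtain ⟨h1, h2⟩ := hq' w hw hwv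
          rw [Function.update_of_ne h1.symm, Function.update_of_ne h2.symm]
          exact hσ2 w (Finset.mem_erase.2 ⟨hwv, hw⟩)

/-- greedy colouring with the three nonzero elements of `G4` -/
theorem col3 {Q : Type*} [Fintype Q] [DecidableEq Q] (N : Q → Q → Prop) (hs : ∀ q q', N q q' → N q' q)
    (h2 : ∀ q, ∃ u w, ∀ q', N q q' → q' = u ∨ q' = w) :
    ∃ x : Q → G4, (∀ q, x q ≠ 0) ∧ ∀ q q', q ≠ q' → N q q' → x q ≠ x q' := by
  classical
  have hc : ∀ α β : G4, ∃ c : G4, c ≠ 0 ∧ c ≠ α ∧ c ≠ β := by decide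
  have key : ∀ T : Finset Q, ∃ x : Q → G4, (∀ q, x q ≠ 0) ∧
      ∀ q ∈ T, ∀ q' ∈ T, q ≠ q' → N q q' → x q ≠ x q' := by
    intro T
    induction T using Finset.induction_on with
    | empty => exact ⟨fun _ => (1, 0), fun _ => (by decide : ((1, 0) : G4) ≠ 0), fun q hq => absurd hq (Finset.notMem_empty _)⟩
    | insert q T hq ih =>
      obtain ⟨x, hx0, hx⟩ := ih
      obtain ⟨u, w, huw⟩ := h2 q
      obtain ⟨c, hc0, hcu, hcw⟩ := hc (x u) (x w)
      refine ⟨Function.update x q c, ?_, ?_⟩
      · intro q'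
        by_cases h : q' = q
        · subst h; rw [Function.update_self]; exact hc0
        · rw [Function.update_of_ne h]; exact hx0 q'
      · intro q1 h1 q2 h2' hne hN
        by_cases e1 : q1 = q
        · subst e1
          have e2 : q2 ≠ q1 := hne.symm
          rw [Function.update_self, Function.update_of_ne e2]
          rcases huw q2 hN with h | h
          · rw [h]; exact hcu
          · rw [h]; exact hcw
        · by_cases e2 : q2 = q
          · subst e2
            rw [Function.update_self, Function.update_of_ne e1]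
            rcases huw q1 (hs _ _ hN) with h | h
            · rw [h]; exact hcu.symm
            · rw [h]; exact hcw.symm
          · rw [Function.update_of_ne e1, Function.update_of_ne e2]
            exact hx q1 (Finset.mem_of_mem_insert_of_ne h1 e1) q2 (Finset.mem_of_mem_insert_of_ne h2' e2)
              hne hN
  obtain ⟨x, hx0, hx⟩ := key univ
  exact ⟨x, hx0, fun q q' => hx q (Finset.mem_univ _) q' (Finset.mem_univ _)⟩

section
variable {V Q S : Type*} [Fintype V] [DecidableEq V] [Fintype Q] [DecidableEq Q]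

/-- values along a circuit with a breaking edge -/
theorem circuit_opt (a b : Q → V) (hne : ∀ q, a q ≠ b q) (M : Finset Q)
    (hM : EvenAt (fun q => s(a q, b q)) M)
    (hmin : ∀ T ⊆ M, T.Nonempty → EvenAt (fun q => s(a q, b q)) T → T = M)
    (Vl : Q → S → Prop) (Rl : S → S → Prop) (hsym : ∀ s s', Rl s s' → Rl s' s)
    (h0 : ∀ q, ∃ s, Vl q s) (fwd : ∀ q q' s, Vl q s → ∃ s', Vl q' s' ∧ Rl s s')
    (q0 : Q) (hq0 : q0 ∈ M) (hbr : ∀ s s', Vl q0 s → Rl s s') :
    ∃ σ : Q → S, (∀ q, Vl q (σ q)) ∧ ∀ v : V, ∀ q ∈ M, ∀ q' ∈ M, v ∈ s(a q, b q) →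
      v ∈ s(a q', b q') → q ≠ q' → Rl (σ q) (σ q') := by
  classical
  let R : V → Prop := fun v => ∃ q q', q ∈ M ∧ q' ∈ M ∧ v ∈ s(a q, b q) ∧ v ∈ s(a q', b q') ∧
    q ≠ q' ∧ q ≠ q0 ∧ q' ≠ q0
  let T0 : Finset V := univ.filter R
  have hT0 : ∀ v, v ∈ T0 ↔ R v := fun v => by simp [T0]
  have hex : ∀ v : V, ∃ pp : Q × Q, R v → (pp.1 ∈ M ∧ pp.2 ∈ M ∧ v ∈ s(a pp.1, b pp.1) ∧
      v ∈ s(a pp.2, b pp.2) ∧ pp.1 ≠ pp.2 ∧ pp.1 ≠ q0 ∧ pp.2 ≠ q0) := by
    intro v
    by_cases h : R v
    · obtain ⟨q, q', h'⟩ := h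
      exact ⟨(q, q'), fun _ => h'⟩
    · exact ⟨(q0, q0), fun h' => absurd h' h⟩
  choose pp hpp using hex
  have hpair : ∀ v, R v → ∀ q ∈ M, v ∈ s(a q, b q) → q = (pp v).1 ∨ q = (pp v).2 := by
    intro v hv q hq hvq
    obtain ⟨h1, h2, h3, h4, h5, h6, h7⟩ := hpp v hv
    obtain ⟨f, hf1, hf2, hf3, hf4⟩ := min_deg2 a b hne M hM hmin v _ h1 h3
    have h8 : (pp v).2 = f := by
      rcases hf4 _ h2 h4 with h | h
      · exact absurd h h5.symm
      · exact h
    rcases hf4 q hq hvq with h | h
    · exact Or.inl h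
    · right; rw [h, h8]
  obtain ⟨σ, hσ1, hσ2⟩ := solve_opt (fun v => (pp v).1) (fun v => (pp v).2) Vl Rl hsym h0 fwd
    _ T0 rfl (fun v hv => (hpp v ((hT0 v).1 hv)).2.2.2.2.1) (by
      intro T hT hTn
      have hcross : ∃ q ∈ M, ¬ (a q ∈ T ↔ b q ∈ T) := by
        by_contra hcon
        push Not at hcon
        let N : Finset Q := M.filter (fun q => a q ∈ T)
        have hN : ∀ q, q ∈ N ↔ q ∈ M ∧ a q ∈ T := fun q => Finset.mem_filter
        have hNM : N ⊆ M := Finset.filter_subset _ _
        have hNn : N.Nonempty := by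
          obtain ⟨v, hv⟩ := hTn
          obtain ⟨h1, h2, h3, _⟩ := hpp v ((hT0 v).1 (hT hv))
          refine ⟨(pp v).1, (hN _).2 ⟨h1, ?_⟩⟩
          rcases Sym2.mem_iff.1 h3 with h | h
          · rw [← h]; exact hv
          · rw [hcon _ h1, ← h]; exact hv
        have hNe : EvenAt (fun q => s(a q, b q)) N := by
          intro v
          by_cases hv : v ∈ T
          · have : N.filter (fun q => v ∈ s(a q, b q)) = M.filter (fun q => v ∈ s(a q, b q)) := by
              ext q
              rw [Finset.mem_filter, hN, Finset.mem_filter]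
              constructor
              · rintro ⟨⟨h1, _⟩, h2⟩; exact ⟨h1, h2⟩
              · rintro ⟨h1, h2⟩
                refine ⟨⟨h1, ?_⟩, h2⟩
                rcases Sym2.mem_iff.1 h2 with h | h
                · rw [← h]; exact hv
                · rw [hcon _ h1, ← h]; exact hv
            show Even (N.filter (fun q => v ∈ s(a q, b q))).card
            rw [this]; exact hM v
          · have : N.filter (fun q => v ∈ s(a q, b q)) = ∅ := by
              apply Finset.filter_false_of_mem
              intro q hq h2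
              obtain ⟨h1, h3⟩ := (hN q).1 hq
              rcases Sym2.mem_iff.1 h2 with h | h
              · apply hv; rw [h]; exact h3
              · apply hv; rw [h, ← hcon _ h1]; exact h3
            show Even (N.filter (fun q => v ∈ s(a q, b q))).card
            rw [this]; simp
        have hNeq := hmin N hNM hNn hNe
        have h4 : a q0 ∈ T := ((hN q0).1 (by rw [hNeq]; exact hq0)).2
        have h5 := (hT0 _).1 (hT h4)
        obtain ⟨_, _, _, _, _, h6, h7⟩ := hpp _ h5
        rcases hpair _ h5 q0 hq0 (Sym2.mem_mk_left _ _) with h | h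
        · exact h6 h.symm
        · exact h7 h.symm
      obtain ⟨q, hqM, hq⟩ := hcross
      by_cases h1 : a q ∈ T
      · have h2 : b q ∉ T := fun h => hq ⟨fun _ => h, fun _ => h1⟩
        refine ⟨a q, h1, q, hpair _ ((hT0 _).1 (hT h1)) q hqM (Sym2.mem_mk_left _ _), ?_⟩
        intro w hw hwa
        obtain ⟨_, _, h3, h4, _⟩ := hpp w ((hT0 _).1 (hT hw))
        constructor
        · intro h
          rw [← h] at h3
          rcases Sym2.mem_iff.1 h3 with h5 | h5
          · exact hwa h5
          · exact h2 (by rw [← h5]; exact hw)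
        · intro h
          rw [← h] at h4
          rcases Sym2.mem_iff.1 h4 with h5 | h5
          · exact hwa h5
          · exact h2 (by rw [← h5]; exact hw)
      · have h2 : b q ∈ T := by
          by_contra h
          exact hq ⟨fun h' => absurd h' h1, fun h' => absurd h' h⟩
        refine ⟨b q, h2, q, hpair _ ((hT0 _).1 (hT h2)) q hqM (Sym2.mem_mk_right _ _), ?_⟩
        intro w hw hwa
        obtain ⟨_, _, h3, h4, _⟩ := hpp w ((hT0 _).1 (hT hw))
        constructor
        · intro h
          rw [← h] at h3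
          rcases Sym2.mem_iff.1 h3 with h5 | h5
          · exact h1 (by rw [← h5]; exact hw)
          · exact hwa h5
        · intro h
          rw [← h] at h4
          rcases Sym2.mem_iff.1 h4 with h5 | h5
          · exact h1 (by rw [← h5]; exact hw)
          · exact hwa h5)
  refine ⟨σ, hσ1, ?_⟩
  intro v q hq q' hq' hv hv' hqq
  by_cases e1 : q = q0
  · subst e1; exact hbr _ _ (hσ1 q)
  · by_cases e2 : q' = q0
    · subst e2; exact hsym _ _ (hbr _ _ (hσ1 q'))
    · have hR : R v := ⟨q, q', hq, hq', hv, hv', hqq, e1, e2⟩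
      have h1 := hσ2 v ((hT0 v).2 hR)
      rcases hpair v hR q hq hv with h2 | h2 <;> rcases hpair v hR q' hq' hv' with h3 | h3
      · exact absurd (h2.trans h3.symm) hqq
      · rw [h2, h3]; exact h1
      · rw [h2, h3]; exact hsym _ _ h1
      · exact absurd (h2.trans h3.symm) hqq

end

/-- valid pairs of labels of the two copies of an edge (`o`: tripled edge) -/
def Vld (o : Bool) (φ x : G4) (s : Option G4 × Option G4) : Prop :=
  if o = true then
    (if φ = 0 then s.1 ≠ s.2 ∧ s.1 ≠ none ∧ s.2 ≠ none ∧ s.1 ≠ some 0 ∧ s.2 ≠ some 0 ∧ s.1 ≠ some x ∧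
      s.2 ≠ some x else (s = (none, some φ) ∨ s = (some φ, none)))
  else (if φ = 0 then s = (none, none) else s.1 ≠ s.2 ∧ s.1 ≠ none ∧ s.2 ≠ none ∧ s.1 ≠ some 0 ∧
    s.2 ≠ some 0 ∧ s.1 ≠ some φ ∧ s.2 ≠ some φ)

instance (o : Bool) (φ x : G4) (s : Option G4 × Option G4) : Decidable (Vld o φ x s) := by
  unfold Vld; infer_instance

/-- no common colour in the same position -/
def Rld (s s' : Option G4 × Option G4) : Prop :=
  (s.1 = none ∨ s.1 ≠ s'.1) ∧ (s.2 = none ∨ s.2 ≠ s'.2)

instance (s s' : Option G4 × Option G4) : Decidable (Rld s s') := by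
  unfold Rld; infer_instance

theorem Rld_symm (s s' : Option G4 × Option G4) (h : Rld s s') : Rld s' s := by
  obtain ⟨h1, h2⟩ := h
  constructor
  · rcases h1 with h | h
    · by_cases h' : s'.1 = none
      · exact Or.inl h'
      · right; rw [h]; exact h'
    · exact Or.inr h.symm
  · rcases h2 with h | h
    · by_cases h' : s'.2 = none
      · exact Or.inl h'
      · right; rw [h]; exact h'
    · exact Or.inr h.symm

theorem vld_fwd' : ∀ (s : Option G4 × Option G4), (s.1 = none ∨ s.2 = none ∨ s.1 ≠ s.2) →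
    ∀ (o : Bool) (φ x : G4), x ≠ 0 → ∃ s', Vld o φ x s' ∧ Rld s s' := by
  decide +kernel

theorem vld_ne : ∀ (o : Bool) (φ x : G4) (s : Option G4 × Option G4), Vld o φ x s →
    (s.1 = none ∨ s.2 = none ∨ s.1 ≠ s.2) := by
  decide +kernel

/-- the labels of the (up to) three copies -/
def tt (φ x : G4) (s : Option G4 × Option G4) (j : Fin 3) : Option G4 :=
  if j = 0 then (if φ = 0 then some x else none) else if j = 1 then s.1 else s.2

/-- copy `j` exists -/
def okj (o : Bool) (j : Fin 3) : Bool := o || !(j == 0)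

theorem okj_iff : ∀ (o : Bool) (j : Fin 3), okj o j = true ↔ (j = 0 → o = true) := by decide

theorem tt_none' : ∀ (o : Bool) (φ x : G4) (s : Option G4 × Option G4) (j : Fin 3),
    okj o j = false ∨ x = 0 ∨ ¬ Vld o φ x s ∨ tt φ x s j ≠ none ∨ ∃ k : Fin 3, okj o k = true ∧ k ≠ j ∧
      tt φ x s k = none ∧ ∀ l : Fin 3, okj o l = false ∨ l = j ∨ tt φ x s l ≠ none ∨ l = k := by
  decide +kernel

theorem tt_none (o : Bool) (φ x : G4) (s : Option G4 × Option G4) (j : Fin 3) (hx : x ≠ 0)
    (hv : Vld o φ x s) (hj : j = 0 → o = true) (ht : tt φ x s j = none) :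
    ∃ k : Fin 3, (k = 0 → o = true) ∧ k ≠ j ∧
      tt φ x s k = none ∧ ∀ l : Fin 3, (l = 0 → o = true) → l ≠ j → tt φ x s l = none → l = k := by
  rcases tt_none' o φ x s j with h | h | h | h | ⟨k, h1, h2, h3, h4⟩
  · rw [(okj_iff o j).2 hj] at h; exact absurd h (by decide)
  · exact absurd h hx
  · exact absurd hv h
  · exact absurd ht h
  · refine ⟨k, (okj_iff o k).1 h1, h2, h3, fun l hl hlj hlt => ?_⟩
    rcases h4 l with h | h | h | h
    · rw [(okj_iff o l).2 hl] at h; exact absurd h (by decide)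
    · exact absurd h hlj
    · exact absurd hlt h
    · exact h

theorem tt_some : ∀ (o : Bool) (φ x : G4) (s : Option G4 × Option G4) (γ : G4), x ≠ 0 →
    Vld o φ x s → γ ≠ 0 → ((∃ j : Fin 3, (j = 0 → o = true) ∧ tt φ x s j = some γ) ↔
      (if φ = 0 ∨ φ = γ then (0 : ZMod 2) else 1) + (if o = true then 1 else 0) ≠ 0) := by
  decide +kernel

theorem tt_uniq' : ∀ (o : Bool) (φ x : G4) (s : Option G4 × Option G4) (γ : G4) (j k : Fin 3),
    x = 0 ∨ ¬ Vld o φ x s ∨ okj o j = false ∨ okj o k = false ∨ tt φ x s j ≠ some γ ∨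
      tt φ x s k ≠ some γ ∨ j = k := by
  decide +kernel

theorem tt_uniq (o : Bool) (φ x : G4) (s : Option G4 × Option G4) (γ : G4) (j k : Fin 3) (hx : x ≠ 0)
    (hv : Vld o φ x s) (hj : j = 0 → o = true) (hk : k = 0 → o = true) (h1 : tt φ x s j = some γ)
    (h2 : tt φ x s k = some γ) : j = k := by
  rcases tt_uniq' o φ x s γ j k with h | h | h | h | h | h | h
  · exact absurd h hx
  · exact absurd hv h
  · rw [(okj_iff o j).2 hj] at h; exact absurd h (by decide)
  · rw [(okj_iff o k).2 hk] at h; exact absurd h (by decide)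
  · exact absurd h1 h
  · exact absurd h2 h
  · exact h

theorem tt_zero' : ∀ (o : Bool) (φ x : G4) (s : Option G4 × Option G4) (j : Fin 3),
    x = 0 ∨ ¬ Vld o φ x s ∨ okj o j = false ∨ tt φ x s j ≠ some 0 := by
  decide +kernel

theorem tt_zero (o : Bool) (φ x : G4) (s : Option G4 × Option G4) (j : Fin 3) (hx : x ≠ 0)
    (hv : Vld o φ x s) (hj : j = 0 → o = true) : tt φ x s j ≠ some 0 := by
  rcases tt_zero' o φ x s j with h | h | h | h
  · exact absurd h hx
  · exact absurd hv h
  · rw [(okj_iff o j).2 hj] at h; exact absurd h (by decide)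
  · exact h

theorem tt_12 : ∀ (o : Bool) (φ x : G4) (s : Option G4 × Option G4), x ≠ 0 → Vld o φ x s →
    ¬ (o = false ∧ φ = 0) → tt φ x s 1 ≠ tt φ x s 2 := by
  decide +kernel

end Pool.Agent.Helper45.CCE
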