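import Mathlib
import Pool.Agent.Helper45.CCE.Opt
import Pool.Agent.Helper45.CCE.Double
import Pool.Agent.Helper45.CCE.Clique

set_option autoImplicit false
set_option linter.all false

open Finset

namespace Pool.Agent.Helper45.CCE

open Pool.Agent.Helper45.CCD

section
variable {V Q : Type} [Fintype V] [DecidableEq V] [Fintype Q] [DecidableEq Q]

theorem circuits (a b : Q → V) (S : Finset Q) (hS : EvenAt (fun q => s(a q, b q)) S) :
    ∃ (Zs : Finset (Finset Q)) (Zf : Q → Finset Q),
      (∀ Z ∈ Zs, Z ⊆ S ∧ Z.Nonempty ∧ EvenAt (fun q => s(a q, b q)) Z ∧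
        ∀ T ⊆ Z, T.Nonempty → EvenAt (fun q => s(a q, b q)) T → T = Z) ∧
      ∀ q ∈ S, Zf q ∈ Zs ∧ q ∈ Zf q ∧ ∀ Z' ∈ Zs, q ∈ Z' → Z' = Zf q := by
  classical
  obtain ⟨Zs, hZ1, hZ2, _⟩ := even_labels (fun q => s(a q, b q)) (fun _ : Q => ()) _ S rfl (by
    intro l S' hS'
    have : S' = S := by
      ext e; rw [hS']; simp
    rw [this]; exact hS)
  have hZex : ∀ q : Q, ∃ Z : Finset Q, q ∈ S → (Z ∈ Zs ∧ q ∈ Z ∧ ∀ Z', Z' ∈ Zs → q ∈ Z' → Z' = Z) := by
    intro q
    by_cases h : q ∈ S
    · obtain ⟨Z, hZ, hu⟩ := hZ2 q h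
      exact ⟨Z, fun _ => ⟨hZ.1, hZ.2, fun Z' h1 h2 => hu Z' ⟨h1, h2⟩⟩⟩
    · exact ⟨∅, fun h' => absurd h' h⟩
  choose Zf hZf using hZex
  exact ⟨Zs, Zf, hZ1, hZf⟩

variable {E : Type} [Fintype E] [DecidableEq E]

theorem fib1 (a b : Q → V) (ends : E → Sym2 V) (π : E → Q) (hends : ∀ e, ends e = s(a (π e), b (π e)))
    (S : Finset Q) (S' : Finset E) (h1 : ∀ e ∈ S', π e ∈ S) (h2 : ∀ q ∈ S, ∃ e ∈ S', π e = q)
    (h3 : ∀ e ∈ S', ∀ e' ∈ S', π e = π e' → e = e') (hS : EvenAt (fun q => s(a q, b q)) S) :
    EvenAt ends S' := by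
  intro v
  have : (S'.filter (fun e => v ∈ ends e)).card = (S.filter (fun q => v ∈ s(a q, b q))).card := by
    refine Finset.card_nbij (fun e => π e) ?_ ?_ ?_
    · intro e h
      rw [Finset.mem_coe, Finset.mem_filter] at h
      rw [Finset.mem_coe, Finset.mem_filter]
      exact ⟨h1 e h.1, by rw [← hends]; exact h.2⟩
    · intro e h e' h' hee
      rw [Finset.mem_coe, Finset.mem_filter] at h h'
      exact h3 e h.1 e' h'.1 hee
    · intro q h
      rw [Finset.mem_coe, Finset.mem_filter] at h
      obtain ⟨e, he, heq⟩ := h2 q h.1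
      refine ⟨e, ?_, heq⟩
      rw [Finset.mem_coe, Finset.mem_filter]
      exact ⟨he, by rw [hends, heq]; exact h.2⟩
  rw [this]
  exact hS v

theorem fib2 (a b : Q → V) (ends : E → Sym2 V) (π : E → Q) (hends : ∀ e, ends e = s(a (π e), b (π e)))
    (S' : Finset E) (h : ∀ e ∈ S', ∃ f ∈ S', f ≠ e ∧ π f = π e ∧ ∀ f' ∈ S', f' ≠ e → π f' = π e → f' = f) :
    EvenAt ends S' := by
  intro v
  apply even_of_partner π
  intro e he
  rw [Finset.mem_filter] at he
  obtain ⟨f, hf, h1, h2, h3⟩ := h e he.1
  refine ⟨f, ?_, h1, h2, ?_⟩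
  · rw [Finset.mem_filter]
    exact ⟨hf, by rw [hends, h2, ← hends]; exact he.2⟩
  · intro f' hf' h4 h5
    rw [Finset.mem_filter] at hf'
    exact h3 f' hf'.1 h4 h5

theorem lam_eq : ∀ γ φ : G4, lam γ φ = if φ = 0 ∨ φ = γ then (0 : ZMod 2) else 1 := by decide

theorem multi_labels (a b : Q → V) (hne : ∀ q, a q ≠ b q)
    (hcut : ∀ X : Finset V, (∃ e, cr a b X e) → ∃ e f, e ≠ f ∧ cr a b X e ∧ cr a b X f)
    (o : Q → Bool) (O : Finset Q) (hO : ∀ q, q ∈ O ↔ o q = true) (hOe : EvenAt (fun q => s(a q, b q)) O)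
    (ends : E → Sym2 V) (π : E → Q) (j : E → Fin 3) (hends : ∀ e, ends e = s(a (π e), b (π e)))
    (hj : ∀ e, j e = 0 → o (π e) = true) (hinj : ∀ e e', π e = π e' → j e = j e' → e = e')
    (hsurj : ∀ q (k : Fin 3), (k = 0 → o q = true) → ∃ e, π e = q ∧ j e = k) :
    ∃ (c : E → Q ⊕ G4) (c' : E → Q ⊕ (Finset Q × Fin 3)),
      (∀ l S', (∀ e, e ∈ S' ↔ c e = l) → EvenAt ends S') ∧
      (∀ l S', (∀ e, e ∈ S' ↔ c' e = l) → EvenAt ends S') ∧
      ∀ (x : V) (e f : E), x ∈ ends e → x ∈ ends f → e ≠ f → c e = c f → c' e ≠ c' f := by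
  classical
  obtain ⟨C, φ0, hC, hφ0, hn0⟩ := flow_gen a b hcut
  let Cs : Finset Q := univ.filter (fun q => C q ≠ 0)
  have hCs : ∀ q, q ∈ Cs ↔ C q ≠ 0 := fun q => by simp [Cs]
  have hCe : EvenAt (fun q => s(a q, b q)) Cs := (evenAt_iff a b hne Cs).2 (by
    rw [ind_supp C Cs hCs]; exact hC)
  obtain ⟨Zs0, Zf, hZ10, hZf0⟩ := circuits a b Cs hCe
  obtain ⟨Ys, Yf, hY1, hYf⟩ := circuits a b O hOe
  -- circuits with a doubled edge
  let Zs : Finset (Finset Q) := Zs0.filter (fun Z => ∃ q ∈ Z, o q = false)
  have hZs : ∀ Z, Z ∈ Zs ↔ Z ∈ Zs0 ∧ ∃ q ∈ Z, o q = false := fun Z => Finset.mem_filter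
  let D : Q → Prop := fun q => q ∈ Cs ∧ Zf q ∈ Zs
  let val : Finset Q → G4 := fun Z => if h : ∃ q ∈ Z, o q = false then φ0 h.choose else 0
  have hval : ∀ Z ∈ Zs, ∃ q ∈ Z, o q = false ∧ φ0 q = val Z := by
    intro Z hZ
    have h := ((hZs Z).1 hZ).2
    refine ⟨h.choose, h.choose_spec.1, h.choose_spec.2, ?_⟩
    show φ0 h.choose = if h : ∃ q ∈ Z, o q = false then φ0 h.choose else 0
    rw [dif_pos h]
  have hZD : ∀ Z ∈ Zs, ∀ q ∈ Z, D q ∧ Zf q = Z := by
    intro Z hZ q hq
    have h0 := ((hZs Z).1 hZ).1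
    have hqC : q ∈ Cs := (hZ10 Z h0).1 hq
    have h1 := (hZf0 q hqC).2.2 Z h0 hq
    exact ⟨⟨hqC, by rw [← h1]; exact hZ⟩, h1.symm⟩
  have hDZ : ∀ q, D q → Zf q ∈ Zs ∧ q ∈ Zf q := fun q h => ⟨h.2, (hZf0 q h.1).2.1⟩
  let φ : Q → G4 := φ0 + ∑ Z ∈ Zs, (fun q => ind Z q • val Z)
  have hφ : bd a b φ = 0 := by
    show bd a b (φ0 + ∑ Z ∈ Zs, (fun q => ind Z q • val Z)) = 0
    rw [bd_add, hφ0, zero_add, bd_sum']
    refine Finset.sum_eq_zero fun Z hZ => ?_
    rw [bd_smul, (evenAt_iff a b hne Z).1 (hZ10 Z ((hZs Z).1 hZ).1).2.2.1]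
    funext v
    simp
  have hφin : ∀ Z ∈ Zs, ∀ q ∈ Z, φ q = φ0 q + val Z := by
    intro Z hZ q hq
    show (φ0 + ∑ Z ∈ Zs, (fun q => ind Z q • val Z)) q = φ0 q + val Z
    rw [Pi.add_apply, Finset.sum_apply, Finset.sum_eq_single_of_mem Z hZ]
    · unfold ind; rw [if_pos hq, one_smul]
    · intro Z' hZ' hne'
      have : q ∉ Z' := by
        intro h
        apply hne'
        rw [← (hZD Z' hZ' q h).2, ← (hZD Z hZ q hq).2]
      unfold ind; rw [if_neg this, zero_smul]
  have hφout : ∀ q, ¬ D q → φ q = φ0 q := by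
    intro q hq
    show (φ0 + ∑ Z ∈ Zs, (fun q => ind Z q • val Z)) q = φ0 q
    rw [Pi.add_apply, Finset.sum_apply, Finset.sum_eq_zero, add_zero]
    intro Z hZ
    have : q ∉ Z := fun h => hq (hZD Z hZ q h).1
    unfold ind; rw [if_neg this, zero_smul]
  have hn : ∀ q, o q = false → ¬ D q → φ q ≠ 0 := by
    intro q ho hD
    rw [hφout q hD]
    apply hn0
    by_contra hc
    have hqC := (hCs q).2 hc
    obtain ⟨h1, h2, h3⟩ := hZf0 q hqC
    exact hD ⟨hqC, (hZs _).2 ⟨h1, q, h2, ho⟩⟩
  -- colours of the third copies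
  let N : Q → Q → Prop := fun q q' => q ≠ q' ∧ q ∈ O ∧ q' ∈ O ∧ Yf q = Yf q' ∧
    ∃ v, v ∈ s(a q, b q) ∧ v ∈ s(a q', b q')
  obtain ⟨x, hx0, hx⟩ := col3 N (by
      rintro q q' ⟨h1, h2, h3, h4, v, h5, h6⟩
      exact ⟨h1.symm, h3, h2, h4.symm, v, h6, h5⟩) (by
      intro q
      by_cases hq : q ∈ O
      · obtain ⟨h1, h2, h3⟩ := hYf q hq
        obtain ⟨_, _, h4, h5⟩ := hY1 _ h1
        obtain ⟨u, _, _, _, hu⟩ := min_deg2 a b hne _ h4 h5 (a q) q h2 (Sym2.mem_mk_left _ _)
        obtain ⟨w, _, _, _, hw⟩ := min_deg2 a b hne _ h4 h5 (b q) q h2 (Sym2.mem_mk_right _ _)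
        refine ⟨u, w, ?_⟩
        rintro q' ⟨g1, g2, g3, g4, v, g5, g6⟩
        have hq'Y : q' ∈ Yf q := by rw [g4]; exact (hYf q' g3).2.1
        rcases Sym2.mem_iff.1 g5 with h | h
        · rcases hu q' hq'Y (by rw [← h]; exact g6) with h' | h'
          · exact absurd h'.symm g1
          · exact Or.inl h'
        · rcases hw q' hq'Y (by rw [← h]; exact g6) with h' | h'
          · exact absurd h'.symm g1
          · exact Or.inr h'
      · exact ⟨q, q, fun q' hq' => absurd hq'.2.1 hq⟩)
  -- options
  let Vl : Q → Option G4 × Option G4 → Prop := fun q s => Vld (o q) (φ q) (x q) s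
  have hV0 : ∀ q, ∃ s, Vl q s := fun q => by
    obtain ⟨s, hs, _⟩ := vld_fwd' (none, none) (Or.inl rfl) (o q) (φ q) (x q) (hx0 q)
    exact ⟨s, hs⟩
  have hfwd : ∀ q q' s, Vl q s → ∃ s', Vl q' s' ∧ Rld s s' := fun q q' s hs =>
    vld_fwd' s (vld_ne _ _ _ s hs) (o q') (φ q') (x q') (hx0 q')
  have hopt : ∀ Z : Finset Q, ∃ σ : Q → Option G4 × Option G4, (∀ q, Vl q (σ q)) ∧
      (Z ∈ Zs → ∀ v : V, ∀ q ∈ Z, ∀ q' ∈ Z, v ∈ s(a q, b q) → v ∈ s(a q', b q') → q ≠ q' →
        Rld (σ q) (σ q')) := by
    intro Z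
    by_cases hZ : Z ∈ Zs
    · obtain ⟨q0, hq0, ho0, hv0⟩ := hval Z hZ
      obtain ⟨_, _, h2, h3⟩ := hZ10 Z ((hZs Z).1 hZ).1
      have hφ00 : φ q0 = 0 := by rw [hφin Z hZ q0 hq0, hv0]; exact g4_self _
      obtain ⟨σ, hσ1, hσ2⟩ := circuit_opt a b hne Z h2 h3 Vl Rld Rld_symm hV0 hfwd q0 hq0 (by
        intro s s' hs
        have hs' : Vld (o q0) (φ q0) (x q0) s := hs
        unfold Vld at hs'
        rw [ho0, if_neg (by decide), if_pos hφ00] at hs'
        rw [hs']
        exact ⟨Or.inl rfl, Or.inl rfl⟩)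
      exact ⟨σ, hσ1, fun _ => hσ2⟩
    · choose σ hσ using hV0
      exact ⟨σ, hσ, fun h => absurd h hZ⟩
  choose σf hσf1 hσf2 using hopt
  let σ : Q → Option G4 × Option G4 := fun q => σf (Zf q) q
  have hσ : ∀ q, Vld (o q) (φ q) (x q) (σ q) := fun q => hσf1 (Zf q) q
  let t : Q → Fin 3 → Option G4 := fun q k => tt (φ q) (x q) (σ q) k
  let c : E → Q ⊕ G4 := fun e => match t (π e) (j e) with
    | none => Sum.inl (π e)
    | some γ => Sum.inr γ
  let c' : E → Q ⊕ (Finset Q × Fin 3) := fun e =>
    if j e = 0 then Sum.inr (Yf (π e), 0) else if D (π e) then Sum.inr (Zf (π e), j e)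
      else Sum.inl (π e)
  have hcn : ∀ e, t (π e) (j e) = none → c e = Sum.inl (π e) := by
    intro e h
    simp only [c, h]
  have hcs : ∀ e γ, t (π e) (j e) = some γ → c e = Sum.inr γ := by
    intro e γ h
    simp only [c, h]
  have hcl : ∀ e q, c e = Sum.inl q ↔ π e = q ∧ t (π e) (j e) = none := by
    intro e q
    cases h : t (π e) (j e) with
    | none => rw [hcn e h]; simp
    | some γ => rw [hcs e γ h]; simp
  have hcr : ∀ e γ, c e = Sum.inr γ ↔ t (π e) (j e) = some γ := by
    intro e γ
    cases h : t (π e) (j e) with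
    | none => rw [hcn e h]; simp
    | some γ' => rw [hcs e γ' h]; simp
  have h0' : ∀ e, j e = 0 → c' e = Sum.inr (Yf (π e), 0) := fun e h => if_pos h
  have h1' : ∀ e, j e ≠ 0 → D (π e) → c' e = Sum.inr (Zf (π e), j e) := by
    intro e h hd
    show (if j e = 0 then Sum.inr (Yf (π e), 0) else if D (π e) then Sum.inr (Zf (π e), j e)
      else Sum.inl (π e)) = _
    rw [if_neg h, if_pos hd]
  have h2' : ∀ e, j e ≠ 0 → ¬ D (π e) → c' e = Sum.inl (π e) := by
    intro e h hd
    show (if j e = 0 then Sum.inr (Yf (π e), 0) else if D (π e) then Sum.inr (Zf (π e), j e)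
      else Sum.inl (π e)) = _
    rw [if_neg h, if_neg hd]
  refine ⟨c, c', ?_, ?_, ?_⟩
  · rintro (q0 | γ) S' hS'
    · apply fib2 a b ends π hends
      intro e he
      rw [hS', hcl] at he
      obtain ⟨k, hk1, hk2, hk3, hk4⟩ := tt_none _ _ _ _ (j e) (hx0 (π e)) (hσ (π e)) (hj e) he.2
      obtain ⟨f, hf1, hf2⟩ := hsurj (π e) k hk1
      refine ⟨f, ?_, ?_, hf1, ?_⟩
      · rw [hS', hcl]
        refine ⟨by rw [hf1]; exact he.1, ?_⟩
        rw [hf1, hf2]; exact hk3
      · intro h
        apply hk2
        rw [← hf2, h]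
      · intro f' hf' hne' hπ
        rw [hS', hcl] at hf'
        apply hinj
        · rw [hπ, hf1]
        · rw [hf2]
          apply hk4 (j f')
          · intro h; rw [← hπ]; exact hj f' h
          · intro h; exact hne' (hinj _ _ hπ h)
          · have := hf'.2
            rw [hπ] at this
            exact this
    · by_cases hγ : γ = 0
      · have : S' = ∅ := by
          apply Finset.eq_empty_of_forall_notMem
          intro e he
          rw [hS', hcr, hγ] at he
          exact tt_zero _ _ _ _ (j e) (hx0 (π e)) (hσ (π e)) (hj e) he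
        rw [this]; exact evenAt_empty _
      · let S : Finset Q := univ.filter (fun q => lam γ (φ q) + ind O q ≠ 0)
        have hindO : ∀ q, ind O q = if o q = true then 1 else 0 := by
          intro q
          unfold ind
          by_cases h : q ∈ O
          · rw [if_pos h, if_pos ((hO q).1 h)]
          · rw [if_neg h, if_neg (fun h' => h ((hO q).2 h'))]
        have hS : ∀ q, q ∈ S ↔ ∃ k : Fin 3, (k = 0 → o q = true) ∧ t q k = some γ := by
          intro q
          rw [Finset.mem_filter]
          simp only [Finset.mem_univ, true_and]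
          rw [lam_eq, hindO]
          exact (tt_some _ _ _ _ γ (hx0 q) (hσ q) hγ).symm
        apply fib1 a b ends π hends S S'
        · intro e he
          rw [hS', hcr] at he
          exact (hS _).2 ⟨j e, hj e, he⟩
        · intro q hq
          obtain ⟨k, hk1, hk2⟩ := (hS q).1 hq
          obtain ⟨e, he1, he2⟩ := hsurj q k hk1
          refine ⟨e, ?_, he1⟩
          rw [hS', hcr, he1, he2]; exact hk2
        · intro e he e' he' hπ
          rw [hS', hcr] at he he'
          apply hinj e e' hπ
          rw [← hπ] at he'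
          exact tt_uniq _ _ _ _ γ (j e) (j e') (hx0 (π e)) (hσ (π e)) (hj e)
            (fun h => by rw [hπ]; exact hj e' h) he he'
        · rw [evenAt_iff a b hne, ind_supp (fun q => lam γ (φ q) + ind O q) S (fun q => by simp [S])]
          have h5 : bd a b ((fun q => lam γ (φ q)) + ind O) = 0 := by
            rw [bd_add, bd_lam a b γ hγ φ hφ, (evenAt_iff a b hne O).1 hOe, add_zero]
          exact h5
  · rintro (q0 | ⟨Z, k⟩) S' hS'
    · apply fib2 a b ends π hends
      intro e he
      rw [hS'] at he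
      have hje : j e ≠ 0 := by
        intro h
        rw [h0' e h] at he
        exact absurd he (by simp)
      have hDe : ¬ D (π e) := by
        intro h
        rw [h1' e hje h] at he
        exact absurd he (by simp)
      rw [h2' e hje hDe] at he
      have he' := Sum.inl.inj he
      have hk : ∀ i : Fin 3, i ≠ 0 → ∃ k : Fin 3, k ≠ 0 ∧ k ≠ i ∧ ∀ l : Fin 3, l ≠ 0 → l ≠ i → l = k := by
        decide
      obtain ⟨k, hk0, hki, hku⟩ := hk (j e) hje
      obtain ⟨f, hf1, hf2⟩ := hsurj (π e) k (fun h => absurd h hk0)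
      refine ⟨f, ?_, ?_, hf1, ?_⟩
      · rw [hS', h2' f (by rw [hf2]; exact hk0) (by rw [hf1]; exact hDe), hf1, he']
      · intro h; apply hki; rw [← hf2, h]
      · intro f' hf' hne' hπ
        have hjf' : j f' ≠ 0 := by
          intro h
          rw [hS', h0' f' h] at hf'
          exact absurd hf' (by simp)
        apply hinj
        · rw [hπ, hf1]
        · rw [hf2]
          exact hku (j f') hjf' (fun h => hne' (hinj _ _ hπ h))
    · by_cases hk : k = 0
      · subst hk
        by_cases hZ : Z ∈ Ys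
        · apply fib1 a b ends π hends Z S'
          · intro e he
            rw [hS'] at he
            have hje : j e = 0 := by
              by_contra h
              by_cases hDe : D (π e)
              · rw [h1' e h hDe] at he
                exact h (Prod.ext_iff.1 (Sum.inr.inj he)).2
              · rw [h2' e h hDe] at he
                exact absurd he (by simp)
            rw [h0' e hje] at he
            have h5 : Yf (π e) = Z := (Prod.ext_iff.1 (Sum.inr.inj he)).1
            rw [← h5]
            exact (hYf (π e) ((hO _).2 (hj e hje))).2.1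
          · intro q hq
            have hqO := (hY1 Z hZ).1 hq
            obtain ⟨e, he1, he2⟩ := hsurj q 0 (fun _ => (hO q).1 hqO)
            refine ⟨e, ?_, he1⟩
            rw [hS', h0' e he2, he1, (hYf q hqO).2.2 Z hZ hq]
          · intro e he e' he' hπ
            rw [hS'] at he he'
            have hz : ∀ e, c' e = Sum.inr (Z, (0 : Fin 3)) → j e = 0 := by
              intro e he
              by_contra h
              by_cases hDe : D (π e)
              · rw [h1' e h hDe] at he
                exact h (Prod.ext_iff.1 (Sum.inr.inj he)).2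
              · rw [h2' e h hDe] at he
                exact absurd he (by simp)
            exact hinj e e' hπ (by rw [hz e he, hz e' he'])
          · exact (hY1 Z hZ).2.2.1
        · have : S' = ∅ := by
            apply Finset.eq_empty_of_forall_notMem
            intro e he
            rw [hS'] at he
            have hje : j e = 0 := by
              by_contra h
              by_cases hDe : D (π e)
              · rw [h1' e h hDe] at he
                exact h (Prod.ext_iff.1 (Sum.inr.inj he)).2
              · rw [h2' e h hDe] at he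
                exact absurd he (by simp)
            rw [h0' e hje] at he
            have h5 : Yf (π e) = Z := (Prod.ext_iff.1 (Sum.inr.inj he)).1
            apply hZ
            rw [← h5]
            exact (hYf (π e) ((hO _).2 (hj e hje))).1
          rw [this]; exact evenAt_empty _
      · have hz : ∀ e, c' e = Sum.inr (Z, k) → j e = k ∧ D (π e) ∧ Zf (π e) = Z := by
          intro e he
          by_cases h : j e = 0
          · rw [h0' e h] at he
            exact absurd (Prod.ext_iff.1 (Sum.inr.inj he)).2.symm hk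
          · by_cases hDe : D (π e)
            · rw [h1' e h hDe] at he
              exact ⟨(Prod.ext_iff.1 (Sum.inr.inj he)).2, hDe, (Prod.ext_iff.1 (Sum.inr.inj he)).1⟩
            · rw [h2' e h hDe] at he
              exact absurd he (by simp)
        by_cases hZ : Z ∈ Zs
        · apply fib1 a b ends π hends Z S'
          · intro e he
            rw [hS'] at he
            obtain ⟨h5, h6, h7⟩ := hz e he
            rw [← h7]
            exact (hDZ _ h6).2
          · intro q hq
            obtain ⟨hDq, hZq⟩ := hZD Z hZ q hq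
            obtain ⟨e, he1, he2⟩ := hsurj q k (fun h => absurd h hk)
            refine ⟨e, ?_, he1⟩
            rw [hS', h1' e (by rw [he2]; exact hk) (by rw [he1]; exact hDq), he1, he2, hZq]
          · intro e he e' he' hπ
            rw [hS'] at he he'
            exact hinj e e' hπ (by rw [(hz e he).1, (hz e' he').1])
          · exact (hZ10 Z ((hZs Z).1 hZ).1).2.2.1
        · have : S' = ∅ := by
            apply Finset.eq_empty_of_forall_notMem
            intro e he
            rw [hS'] at he
            obtain ⟨h5, h6, h7⟩ := hz e he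
            exact hZ (by rw [← h7]; exact (hDZ _ h6).1)
          rw [this]; exact evenAt_empty _
  · intro v e f hve hvf hef hcc hcc'
    have hv1 : v ∈ s(a (π e), b (π e)) := by rw [← hends]; exact hve
    have hv2 : v ∈ s(a (π f), b (π f)) := by rw [← hends]; exact hvf
    -- the colours coincide unless the host edges coincide
    have hcol : π e ≠ π f → ∃ γ, t (π e) (j e) = some γ ∧ t (π f) (j f) = some γ := by
      intro hne'
      cases h : t (π e) (j e) with
      | none =>
        rw [hcn e h] at hcc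
        exact absurd ((hcl f _).1 hcc.symm).1.symm hne'
      | some γ =>
        rw [hcs e γ h] at hcc
        exact ⟨γ, rfl, (hcr f γ).1 hcc.symm⟩
    by_cases hje : j e = 0
    · rw [h0' e hje] at hcc'
      by_cases hjf : j f = 0
      · rw [h0' f hjf] at hcc'
        have h5 : Yf (π e) = Yf (π f) := (Prod.ext_iff.1 (Sum.inr.inj hcc')).1
        have hπ : π e ≠ π f := fun h => hef (hinj e f h (by rw [hje, hjf]))
        obtain ⟨γ, g1, g2⟩ := hcol hπ
        have hN : N (π e) (π f) := ⟨hπ, (hO _).2 (hj e hje), (hO _).2 (hj f hjf), h5, v, hv1, hv2⟩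
        have hxx := hx _ _ hπ hN
        have g1' : tt (φ (π e)) (x (π e)) (σ (π e)) (j e) = some γ := g1
        have g2' : tt (φ (π f)) (x (π f)) (σ (π f)) (j f) = some γ := g2
        unfold tt at g1' g2'
        rw [if_pos hje] at g1'
        rw [if_pos hjf] at g2'
        by_cases hp : φ (π e) = 0
        · by_cases hp' : φ (π f) = 0
          · rw [if_pos hp] at g1'
            rw [if_pos hp'] at g2'
            exact hxx ((Option.some.inj g1').trans (Option.some.inj g2').symm)
          · rw [if_neg hp'] at g2'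
            exact absurd g2' (by simp)
        · rw [if_neg hp] at g1'
          exact absurd g1' (by simp)
      · by_cases hD : D (π f)
        · rw [h1' f hjf hD] at hcc'
          exact hjf (Prod.ext_iff.1 (Sum.inr.inj hcc')).2.symm
        · rw [h2' f hjf hD] at hcc'
          exact absurd hcc' (by simp)
    · by_cases hD : D (π e)
      · rw [h1' e hje hD] at hcc'
        by_cases hjf : j f = 0
        · rw [h0' f hjf] at hcc'
          exact hje (Prod.ext_iff.1 (Sum.inr.inj hcc')).2
        · by_cases hD' : D (π f)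
          · rw [h1' f hjf hD'] at hcc'
            have h5 : Zf (π e) = Zf (π f) := (Prod.ext_iff.1 (Sum.inr.inj hcc')).1
            have h6 : j e = j f := (Prod.ext_iff.1 (Sum.inr.inj hcc')).2
            have hπ : π e ≠ π f := fun h => hef (hinj e f h h6)
            obtain ⟨γ, g1, g2⟩ := hcol hπ
            obtain ⟨a1, a2⟩ := hDZ _ hD
            obtain ⟨b1, b2⟩ := hDZ _ hD'
            have hR := hσf2 (Zf (π e)) a1 v (π e) a2 (π f) (by rw [h5]; exact b2) hv1 hv2 hπ
            have hR' : Rld (σ (π e)) (σ (π f)) := by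
              show Rld (σf (Zf (π e)) (π e)) (σf (Zf (π f)) (π f))
              rw [← h5]; exact hR
            have g1' : tt (φ (π e)) (x (π e)) (σ (π e)) (j e) = some γ := g1
            have g2' : tt (φ (π f)) (x (π f)) (σ (π f)) (j f) = some γ := g2
            unfold tt at g1' g2'
            rw [if_neg hje] at g1'
            rw [if_neg hjf] at g2'
            by_cases h1 : j e = 1
            · rw [if_pos h1] at g1'
              rw [if_pos (by rw [← h6]; exact h1)] at g2'
              rcases hR'.1 with h | h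
              · rw [h] at g1'; exact absurd g1' (by simp)
              · exact h (by rw [g1', g2'])
            · rw [if_neg h1] at g1'
              rw [if_neg (by rw [← h6]; exact h1)] at g2'
              rcases hR'.2 with h | h
              · rw [h] at g1'; exact absurd g1' (by simp)
              · exact h (by rw [g1', g2'])
          · rw [h2' f hjf hD'] at hcc'
            exact absurd hcc' (by simp)
      · rw [h2' e hje hD] at hcc'
        by_cases hjf : j f = 0
        · rw [h0' f hjf] at hcc'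
          exact absurd hcc' (by simp)
        · by_cases hD' : D (π f)
          · rw [h1' f hjf hD'] at hcc'
            exact absurd hcc' (by simp)
          · rw [h2' f hjf hD'] at hcc'
            have hπ : π e = π f := Sum.inl.inj hcc'
            have hjj : j e ≠ j f := fun h => hef (hinj e f hπ h)
            have hφn : ¬ (o (π e) = false ∧ φ (π e) = 0) := fun h => hn _ h.1 hD h.2
            have h12 := tt_12 _ _ _ _ (hx0 (π e)) (hσ (π e)) hφn
            have h12' : t (π e) 1 ≠ t (π e) 2 := h12
            have htt : t (π e) (j e) = t (π e) (j f) := by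
              cases h : t (π e) (j e) with
              | none =>
                rw [hcn e h] at hcc
                have := ((hcl f _).1 hcc.symm).2
                rw [← hπ] at this
                exact this.symm
              | some γ =>
                rw [hcs e γ h] at hcc
                have := (hcr f γ).1 hcc.symm
                rw [← hπ] at this
                exact this.symm
            have hfin : ∀ i k : Fin 3, i ≠ 0 → k ≠ 0 → i ≠ k → (i = 1 ∧ k = 2) ∨ (i = 2 ∧ k = 1) := by
              decide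
            rcases hfin (j e) (j f) hje hjf hjj with ⟨h, h'⟩ | ⟨h, h'⟩
            · rw [h, h'] at htt; exact h12' htt
            · rw [h, h'] at htt; exact h12' htt.symm

end

end Pool.Agent.Helper45.CCE
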