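import Mathlib
import Pool.Agent.Helper45.CCE.Triple

set_option autoImplicit false
set_option linter.all false

open Finset

namespace Pool.Agent.Helper45.CCE

open Pool.Agent.Helper45.CCD

section
variable {V E : Type} [Fintype V] [DecidableEq V] [Fintype E] [DecidableEq E]

/-- numbering of the edges inside the parallel classes -/
theorem index (ends : E → Sym2 V) :
    ∃ (m : Sym2 V → ℕ) (n : E → ℕ), (∀ z, m z = (univ.filter (fun e => ends e = z)).card) ∧
      (∀ e, n e < m (ends e)) ∧ (∀ e e', ends e = ends e' → n e = n e' → e = e') ∧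
      ∀ z i, i < m z → ∃ e, ends e = z ∧ n e = i := by
  classical
  have g : ∀ z : Sym2 V, {e : E // ends e = z} ≃ Fin (Fintype.card {e : E // ends e = z}) :=
    fun z => Fintype.equivFin _
  refine ⟨fun z => Fintype.card {e : E // ends e = z}, fun e => (g (ends e) ⟨e, rfl⟩ : ℕ), ?_, ?_, ?_, ?_⟩
  · intro z
    exact Fintype.card_subtype _
  · intro e
    exact (g (ends e) ⟨e, rfl⟩).2
  · intro e e' h1 h2
    have key : ∀ (z : Sym2 V) (h : ends e = z), ((g z ⟨e, h⟩ : Fin _) : ℕ) = (g (ends e) ⟨e, rfl⟩ : ℕ) := by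
      rintro z rfl; rfl
    have h3 := key (ends e') h1
    have h4 : g (ends e') ⟨e, h1⟩ = g (ends e') ⟨e', rfl⟩ := Fin.ext (h3.trans h2)
    exact congrArg Subtype.val ((g (ends e')).injective h4)
  · intro z i hi
    refine ⟨((g z).symm ⟨i, hi⟩).1, ((g z).symm ⟨i, hi⟩).2, ?_⟩
    have key : ∀ (x : {e : E // ends e = z}), ((g (ends x.1) ⟨x.1, rfl⟩ : Fin _) : ℕ) = (g z x : ℕ) := by
      rintro ⟨e, rfl⟩; rfl
    refine (key ((g z).symm ⟨i, hi⟩)).trans ?_
    rw [Equiv.apply_symm_apply]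

theorem fib1' {Q : Type} [Fintype Q] [DecidableEq Q] (a b : Q → V) (ends : E → Sym2 V) (π : E → Q)
    (hends : ∀ e, ends e = s(a (π e), b (π e)))
    (S : Finset Q) (S' : Finset E) (h1 : ∀ e ∈ S', π e ∈ S) (h2 : ∀ q ∈ S, ∃ e ∈ S', π e = q)
    (h3 : ∀ e ∈ S', ∀ e' ∈ S', π e = π e' → e = e') (hS : EvenAt ends S') :
    EvenAt (fun q => s(a q, b q)) S := by
  intro v
  have : (S'.filter (fun e => v ∈ ends e)).card = (S.filter (fun q => v ∈ s(a q, b q))).card := by
    refine Finset.card_nbij (fun e => π e) ?_ ?_ ?_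
    · intro e h
      rw [Finset.mem_coe, Finset.mem_filter] at h
      rw [Finset.mem_coe, Finset.mem_filter]
      exact ⟨h1 e h.1, by rw [← hends]; exact h.2⟩
    · intro e h e' h' hee
      rw [Finset.mem_coe, Finset.mem_filter] at h h'
      exact h3 e h.1 e' h'.1 hee
    · intro q h
      rw [Finset.mem_coe, Finset.mem_filter] at h
      obtain ⟨e, he, heq⟩ := h2 q h.1
      refine ⟨e, ?_, heq⟩
      rw [Finset.mem_coe, Finset.mem_filter]
      exact ⟨he, by rw [hends, heq]; exact h.2⟩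
  rw [← this]
  exact hS v

theorem hosts (ends : E → Sym2 V) (hloop : ∀ e, ¬ (ends e).IsDiag)
    (hpar : ∀ e, ∃ f, f ≠ e ∧ ends f = ends e) :
    ∃ (Q : Type) (_ : Fintype Q) (_ : DecidableEq Q) (a b : Q → V) (o : Q → Bool) (π : E → Q)
      (j : E → Fin 3), (∀ e, ends e = s(a (π e), b (π e))) ∧ (∀ q, a q ≠ b q) ∧
      (∀ e, j e = 0 → o (π e) = true) ∧ (∀ e e', π e = π e' → j e = j e' → e = e') ∧
      (∀ q (k : Fin 3), (k = 0 → o q = true) → ∃ e, π e = q ∧ j e = k) := by
  classical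
  obtain ⟨m, n, hm, hn1, hn2, hn3⟩ := index ends
  have hm2 : ∀ e, 2 ≤ m (ends e) := by
    intro e
    obtain ⟨f, hf1, hf2⟩ := hpar e
    rw [hm, ← Finset.card_pair hf1]
    apply Finset.card_le_card
    intro x hx
    rw [Finset.mem_insert, Finset.mem_singleton] at hx
    rcases hx with rfl | rfl
    · exact Finset.mem_filter.2 ⟨Finset.mem_univ _, hf2⟩
    · exact Finset.mem_filter.2 ⟨Finset.mem_univ _, rfl⟩
  have hz : ∀ z : Sym2 V, ∃ u v : V, z = s(u, v) := by
    intro z
    induction z using Sym2.ind with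
    | _ u v => exact ⟨u, v, rfl⟩
  choose az bz' hz using hz
  let Q : Type := Σ z : Sym2 V, Fin (m z / 2)
  have hlt : ∀ e, (if n e < 2 * (m (ends e) / 2) then n e / 2 else 0) < m (ends e) / 2 := by
    intro e
    have h1 := hm2 e
    split_ifs <;> omega
  let π : E → Q := fun e => ⟨ends e, ⟨if n e < 2 * (m (ends e) / 2) then n e / 2 else 0, hlt e⟩⟩
  let j : E → Fin 3 := fun e => if n e < 2 * (m (ends e) / 2) then (if n e % 2 = 0 then 1 else 2) else 0
  let o : Q → Bool := fun q => decide (m q.1 % 2 = 1 ∧ (q.2 : ℕ) = 0)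
  have hsurj : ∀ q (k : Fin 3), (k = 0 → o q = true) → ∃ e, π e = q ∧ j e = k := by
    rintro ⟨z, i⟩ k hk
    have hi := i.2
    have hfin0 : ∀ k : Fin 3, k = 0 ∨ k = 1 ∨ k = 2 := by decide
    have hfin := hfin0 k
    have hmain : ∀ (e : E) (he : ends e = z) (k : Fin 3), ((if n e < 2 * (m (ends e) / 2) then n e / 2 else 0) = (i : ℕ)) →
        j e = k → ∃ e, π e = (⟨z, i⟩ : Q) ∧ j e = k := by
      rintro e rfl k h1 h2
      refine ⟨e, ?_, h2⟩
      show (⟨ends e, ⟨_, hlt e⟩⟩ : Q) = ⟨ends e, i⟩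
      congr 1
      exact Fin.ext h1
    rcases hfin with rfl | rfl | rfl
    · have h1 : m z % 2 = 1 ∧ (i : ℕ) = 0 := of_decide_eq_true (hk rfl)
      obtain ⟨e, he, hne⟩ := hn3 z (2 * (m z / 2)) (by omega)
      subst he
      apply hmain e rfl 0
      · rw [hne, if_neg (by omega)]; exact h1.2.symm
      · show (if n e < 2 * (m (ends e) / 2) then (if n e % 2 = 0 then 1 else 2) else 0 : Fin 3) = 0
        rw [hne, if_neg (by omega)]
    · obtain ⟨e, he, hne⟩ := hn3 z (2 * (i : ℕ)) (by omega)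
      subst he
      apply hmain e rfl 1
      · rw [hne, if_pos (by omega)]; omega
      · show (if n e < 2 * (m (ends e) / 2) then (if n e % 2 = 0 then 1 else 2) else 0 : Fin 3) = 1
        rw [hne, if_pos (by omega), if_pos (by omega)]
    · obtain ⟨e, he, hne⟩ := hn3 z (2 * (i : ℕ) + 1) (by omega)
      subst he
      apply hmain e rfl 2
      · rw [hne, if_pos (by omega)]; omega
      · show (if n e < 2 * (m (ends e) / 2) then (if n e % 2 = 0 then 1 else 2) else 0 : Fin 3) = 2
        rw [hne, if_pos (by omega), if_neg (by omega)]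
  refine ⟨Q, inferInstance, inferInstance, fun q => az q.1, fun q => bz' q.1, o, π, j, ?_, ?_, ?_, ?_, hsurj⟩
  · intro e
    exact hz (ends e)
  · intro q h
    obtain ⟨e, he, _⟩ := hsurj q 1 (fun h => absurd h (by decide))
    apply hloop e
    have h2 : ends e = q.1 := congrArg (fun q : Q => q.1) he
    rw [h2, hz q.1]
    exact Sym2.mk_isDiag_iff.2 h
  · intro e h
    have h1 := hn1 e
    have h2 := hm2 e
    have h3 : ¬ n e < 2 * (m (ends e) / 2) := by
      intro h3
      have h4 : j e = if n e % 2 = 0 then 1 else 2 := if_pos h3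
      rw [h4] at h
      split_ifs at h <;> exact absurd h (by decide)
    show decide (m (ends e) % 2 = 1 ∧ (if n e < 2 * (m (ends e) / 2) then n e / 2 else 0) = 0) = true
    rw [decide_eq_true_eq, if_neg h3]
    exact ⟨by omega, rfl⟩
  · intro e e' hπ hj
    have h1 : ends e = ends e' := congrArg (fun q : Q => q.1) hπ
    have h2 : (if n e < 2 * (m (ends e) / 2) then n e / 2 else 0) =
        (if n e' < 2 * (m (ends e') / 2) then n e' / 2 else 0) := congrArg (fun q : Q => (q.2 : ℕ)) hπ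
    apply hn2 e e' h1
    have h3 := hn1 e
    have h4 := hn1 e'
    have hj' : (if n e < 2 * (m (ends e) / 2) then (if n e % 2 = 0 then 1 else 2) else 0 : Fin 3) =
      (if n e' < 2 * (m (ends e') / 2) then (if n e' % 2 = 0 then 1 else 2) else 0 : Fin 3) := hj
    rw [h1] at h2 h3 hj'
    by_cases c1 : n e < 2 * (m (ends e') / 2) <;> by_cases c2 : n e' < 2 * (m (ends e') / 2)
    · rw [if_pos c1, if_pos c2] at h2 hj'
      by_cases d1 : n e % 2 = 0 <;> by_cases d2 : n e' % 2 = 0
      · omega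
      · rw [if_pos d1, if_neg d2] at hj'; exact absurd hj' (by decide)
      · rw [if_neg d1, if_pos d2] at hj'; exact absurd hj' (by decide)
      · omega
    · rw [if_pos c1, if_neg c2] at hj'
      split_ifs at hj' <;> exact absurd hj' (by decide)
    · rw [if_neg c1, if_pos c2] at hj'
      split_ifs at hj' <;> exact absurd hj' (by decide)
    · omega

theorem multi_pos (ends : E → Sym2 V) (hloop : ∀ e, ¬ (ends e).IsDiag)
    (hdeg : ∀ v : V, Even (univ.filter (fun e : E => v ∈ ends e)).card)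
    (hpar : ∀ e, ∃ f, f ≠ e ∧ ends f = ends e)
    (hcut : ∀ X : Finset V, ∀ S : Finset E,
      (∀ e, e ∈ S ↔ ∃ u ∈ X, ∃ v, v ∉ X ∧ ends e = s(u, v)) → S.card ≠ 2) :
    ∃ C₁ C₂ : Finset (Finset E),
        (∀ S ∈ C₁, S.Nonempty ∧ (∀ v : V, Even (S.filter (fun e => v ∈ ends e)).card) ∧
            ∀ T ⊆ S, T.Nonempty → (∀ v : V, Even (T.filter (fun e => v ∈ ends e)).card) → T = S) ∧
        (∀ e : E, ∃! S, S ∈ C₁ ∧ e ∈ S) ∧
        (∀ S ∈ C₂, S.Nonempty ∧ (∀ v : V, Even (S.filter (fun e => v ∈ ends e)).card) ∧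
            ∀ T ⊆ S, T.Nonempty → (∀ v : V, Even (T.filter (fun e => v ∈ ends e)).card) → T = S) ∧
        (∀ e : E, ∃! S, S ∈ C₂ ∧ e ∈ S) ∧
        (∀ v : V, ∀ S₁ ∈ C₁, ∀ S₂ ∈ C₂,
            ((S₁ ∩ S₂).filter (fun e => v ∈ ends e)).card ≤ 1) := by
  classical
  obtain ⟨Q, _, _, a, b, o, π, j, hends, hne, hj, hinj, hsurj⟩ := hosts ends hloop hpar
  let O : Finset Q := univ.filter (fun q => o q = true)
  have hO : ∀ q, q ∈ O ↔ o q = true := fun q => by simp [O]
  have hOe : EvenAt (fun q => s(a q, b q)) O := by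
    have h1 : EvenAt ends (univ.filter (fun e => j e ≠ 0)) := by
      apply fib2 a b ends π hends
      intro e he
      rw [Finset.mem_filter] at he
      have hk : ∀ i : Fin 3, i ≠ 0 → ∃ k : Fin 3, k ≠ 0 ∧ k ≠ i ∧ ∀ l : Fin 3, l ≠ 0 → l ≠ i → l = k := by
        decide
      obtain ⟨k, hk0, hki, hku⟩ := hk (j e) he.2
      obtain ⟨f, hf1, hf2⟩ := hsurj (π e) k (fun h => absurd h hk0)
      refine ⟨f, Finset.mem_filter.2 ⟨Finset.mem_univ _, by rw [hf2]; exact hk0⟩, ?_, hf1, ?_⟩
      · intro h; apply hki; rw [← hf2, h]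
      · intro f' hf' hne' hπ
        apply hinj
        · rw [hπ, hf1]
        · rw [hf2]
          exact hku (j f') (Finset.mem_filter.1 hf').2 (fun h => hne' (hinj _ _ hπ h))
    have h2 : EvenAt ends (univ \ univ.filter (fun e => j e ≠ 0)) :=
      evenAt_sdiff ends (Finset.subset_univ _) hdeg h1
    have h3 : ∀ e, e ∈ univ \ univ.filter (fun e => j e ≠ 0) ↔ j e = 0 := by
      intro e
      rw [Finset.mem_sdiff, Finset.mem_filter]
      simp
    apply fib1' a b ends π hends O _ _ _ _ h2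
    · intro e he
      rw [h3] at he
      exact (hO _).2 (hj e he)
    · intro q hq
      obtain ⟨e, he1, he2⟩ := hsurj q 0 (fun _ => (hO q).1 hq)
      exact ⟨e, (h3 e).2 he2, he1⟩
    · intro e he e' he' hπ
      exact hinj e e' hπ (by rw [(h3 e).1 he, (h3 e').1 he'])
  have hcr : ∀ (X : Finset V) (e : E), (∃ u ∈ X, ∃ v, v ∉ X ∧ ends e = s(u, v)) ↔ cr a b X (π e) := by
    intro X e
    rw [hends e]
    unfold cr
    constructor
    · rintro ⟨u, hu, v, hv, h⟩
      rcases Sym2.eq_iff.1 h with ⟨h1, h2⟩ | ⟨h1, h2⟩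
      · rw [h1, h2]; exact fun h => hv (h.1 hu)
      · rw [h1, h2]; exact fun h => hv (h.2 hu)
    · intro h
      by_cases h1 : a (π e) ∈ X
      · exact ⟨_, h1, _, fun h2 => h ⟨fun _ => h2, fun _ => h1⟩, rfl⟩
      · refine ⟨b (π e), ?_, a (π e), h1, Sym2.eq_swap⟩
        by_contra h2
        exact h ⟨fun h' => absurd h' h1, fun h' => absurd h' h2⟩
  have hcut' : ∀ X : Finset V, (∃ e, cr a b X e) → ∃ e f, e ≠ f ∧ cr a b X e ∧ cr a b X f := by
    rintro X ⟨q, hq⟩
    by_contra hcon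
    have hall : ∀ q', cr a b X q' → q' = q := by
      intro q' hq'
      by_contra h
      exact hcon ⟨q', q, h, hq', hq⟩
    by_cases ho : o q = true
    · have h7 := sum_cut a b (ind O) X
      rw [(evenAt_iff a b hne O).1 hOe] at h7
      have h8 : univ.filter (cr a b X) = {q} := by
        ext x
        rw [Finset.mem_filter, Finset.mem_singleton]
        constructor
        · rintro ⟨_, h⟩; exact hall x h
        · rintro rfl; exact ⟨Finset.mem_univ _, hq⟩
      rw [h8, Finset.sum_singleton] at h7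
      unfold ind at h7
      rw [if_pos ((hO q).2 ho)] at h7
      simp at h7
    · obtain ⟨e1, h11, h12⟩ := hsurj q 1 (fun h => absurd h (by decide))
      obtain ⟨e2, h21, h22⟩ := hsurj q 2 (fun h => absurd h (by decide))
      apply hcut X (univ.filter (fun e => cr a b X (π e))) (by
        intro e
        rw [Finset.mem_filter, hcr]
        simp)
      have : univ.filter (fun e => cr a b X (π e)) = {e1, e2} := by
        ext e
        rw [Finset.mem_filter, Finset.mem_insert, Finset.mem_singleton]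
        simp only [Finset.mem_univ, true_and]
        constructor
        · intro h
          have h1 := hall _ h
          have hj0 : j e ≠ 0 := by
            intro h0
            apply ho
            rw [← h1]; exact hj e h0
          have hfin : ∀ k : Fin 3, k ≠ 0 → k = 1 ∨ k = 2 := by decide
          rcases hfin _ hj0 with h2 | h2
          · left
            exact hinj e e1 (by rw [h1, h11]) (by rw [h2, h12])
          · right
            exact hinj e e2 (by rw [h1, h21]) (by rw [h2, h22])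
        · rintro (h | h)
          · rw [h, h11]; exact hq
          · rw [h, h21]; exact hq
      rw [this, Finset.card_pair]
      rintro rfl
      rw [h12] at h22
      exact absurd h22 (by decide)
  obtain ⟨c, c', h1, h2, h3⟩ := multi_labels a b hne hcut' o O hO hOe ends π j hends hj hinj hsurj
  exact even_pair ends c c' h1 h2 h3

theorem multi_neg (ends : E → Sym2 V) (hloop : ∀ e, ¬ (ends e).IsDiag)
    (hpar : ∀ e, ∃ f, f ≠ e ∧ ends f = ends e)
    (X : Finset V) (S : Finset E)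
    (hS : ∀ e, e ∈ S ↔ ∃ u ∈ X, ∃ v, v ∉ X ∧ ends e = s(u, v)) (hS2 : S.card = 2)
    (C₁ C₂ : Finset (Finset E))
    (h1 : ∀ S ∈ C₁, (∀ v : V, Even (S.filter (fun e => v ∈ ends e)).card))
    (h2 : ∀ e : E, ∃! S, S ∈ C₁ ∧ e ∈ S)
    (h3 : ∀ S ∈ C₂, (∀ v : V, Even (S.filter (fun e => v ∈ ends e)).card))
    (h4 : ∀ e : E, ∃! S, S ∈ C₂ ∧ e ∈ S)
    (h5 : ∀ v : V, ∀ S₁ ∈ C₁, ∀ S₂ ∈ C₂, ((S₁ ∩ S₂).filter (fun e => v ∈ ends e)).card ≤ 1) :
    False := by
  classical
  obtain ⟨e, f, hef, hSef⟩ := Finset.card_eq_two.1 hS2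
  have heS : e ∈ S := by rw [hSef]; exact Finset.mem_insert_self _ _
  have hfS : f ∈ S := by rw [hSef]; exact Finset.mem_insert_of_mem (Finset.mem_singleton_self _)
  obtain ⟨u, hu, v, hv, he⟩ := (hS e).1 heS
  have hf : ends f = s(u, v) := by
    obtain ⟨g, hg1, hg2⟩ := hpar e
    have hgS : g ∈ S := (hS g).2 ⟨u, hu, v, hv, by rw [hg2, he]⟩
    rw [hSef, Finset.mem_insert, Finset.mem_singleton] at hgS
    rcases hgS with h | h
    · exact absurd h hg1
    · rw [← h, hg2, he]
  have hab : ∀ e, ∃ a b, ends e = s(a, b) := by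
    intro e
    induction h : ends e using Sym2.ind with
    | _ u v => exact ⟨u, v, rfl⟩
  choose a b hab using hab
  have hne : ∀ e, a e ≠ b e := by
    intro e h
    apply hloop e
    rw [hab]
    exact Sym2.mk_isDiag_iff.2 h
  have hcr : ∀ x : E, cr a b X x ↔ x = e ∨ x = f := by
    intro x
    have : x ∈ S ↔ x = e ∨ x = f := by
      rw [hSef, Finset.mem_insert, Finset.mem_singleton]
    rw [← this, hS, hab x]
    unfold cr
    constructor
    · intro h
      by_cases h1 : a x ∈ X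
      · exact ⟨_, h1, _, fun h2 => h ⟨fun _ => h2, fun _ => h1⟩, rfl⟩
      · refine ⟨b x, ?_, a x, h1, Sym2.eq_swap⟩
        by_contra h2
        exact h ⟨fun h' => absurd h' h1, fun h' => absurd h' h2⟩
    · rintro ⟨u, hu, v, hv, h⟩
      rcases Sym2.eq_iff.1 h with ⟨h1, h2⟩ | ⟨h1, h2⟩
      · rw [h1, h2]; exact fun h => hv (h.1 hu)
      · rw [h1, h2]; exact fun h => hv (h.2 hu)
  have key : ∀ T : Finset E, (∀ v : V, Even (T.filter (fun e => v ∈ ends e)).card) → e ∈ T → f ∈ T := by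
    intro T hT heT
    have h6 : EvenAt (fun e => s(a e, b e)) T := by
      intro w
      have := hT w
      simp only [hab] at this
      exact this
    have h7 := sum_cut a b (ind T) X
    rw [(evenAt_iff a b hne T).1 h6] at h7
    have h8 : univ.filter (cr a b X) = {e, f} := by
      ext x
      rw [Finset.mem_filter, hcr, Finset.mem_insert, Finset.mem_singleton]
      simp
    rw [h8, Finset.sum_pair hef] at h7
    by_contra hfT
    unfold ind at h7
    rw [if_pos heT, if_neg hfT] at h7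
    simp at h7
  obtain ⟨S₁, ⟨hS₁, heS₁⟩, _⟩ := h2 e
  obtain ⟨S₂, ⟨hS₂, heS₂⟩, _⟩ := h4 e
  have hfS₁ := key S₁ (h1 S₁ hS₁) heS₁
  have hfS₂ := key S₂ (h3 S₂ hS₂) heS₂
  have h9 := h5 u S₁ hS₁ S₂ hS₂
  have h10 : ({e, f} : Finset E) ⊆ (S₁ ∩ S₂).filter (fun e => u ∈ ends e) := by
    intro x hx
    rw [Finset.mem_insert, Finset.mem_singleton] at hx
    rcases hx with rfl | rfl
    · exact Finset.mem_filter.2 ⟨Finset.mem_inter.2 ⟨heS₁, heS₂⟩, by rw [he]; exact Sym2.mem_mk_left _ _⟩
    · exact Finset.mem_filter.2 ⟨Finset.mem_inter.2 ⟨hfS₁, hfS₂⟩, by rw [hf]; exact Sym2.mem_mk_left _ _⟩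
  have h11 := Finset.card_le_card h10
  rw [Finset.card_pair hef] at h11
  omega

end

end Pool.Agent.Helper45.CCE
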